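import Pool.Agent.Lib.MP_2fb4be_al.FD.Rel

/-!
Vanishing of complete cohomology for directed unions and for modules with a cup product of finite
length.
-/

set_option autoImplicit false
set_option linter.unusedSectionVars false

noncomputable section

namespace Pool.Agent.Lib.MP_2fb4be_al.Sol.K

open Finsupp hiding cons
open Filter Pool.Agent.Lib.MP_f0c981_al

variable {k : Type} [CommRing k] {G : Type} [Group G]
variable {D M M' : Type} [AddCommGroup D] [Module k D] [AddCommGroup M] [Module k M]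
  [AddCommGroup M'] [Module k M']

lemma null_union [IsDomain k] (hG : FinType k G) (E : DM k G D) (hE : E.Ex) {I : Type}
    (M : I → Type) [∀ i, AddCommGroup (M i)] [∀ i, Module k (M i)] (F : ∀ i, DM k G (M i))
    (q : ∀ i, M i →ₗ[k] D) (hq : ∀ i, Mor (F i) E (q i)) (hi : ∀ i, Function.Injective (q i))
    (hF : ∀ i, (F i).Ex) (hN : ∀ i, Null (F i))
    (hX : ∀ X : Set D, X.Finite → ∃ i, ∀ x ∈ X, x ∈ LinearMap.range (q i)) : Null E := by
  intro u hu f f1 f2
  obtain ⟨r, σ, r1, s1, r2, s2, r3, s3, hfin⟩ := hG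
  obtain ⟨n0, f2⟩ := eventually_atTop.1 f2
  obtain ⟨X, X1, X2, X3⟩ := hfin n0
  obtain ⟨i, hi'⟩ := hX _ (X1.image f)
  have X4 := X3 ((LinearMap.range (q i)).comap f) fun γ x hx => by
    obtain ⟨y, hy⟩ := hi' _ ⟨x, hx, rfl⟩
    exact ⟨(F i).ρ γ y, by rw [(hq i).ρ, hy, f1]⟩
  obtain ⟨g0, g1, g2⟩ := lift_map (F i).ρ E.ρ (q i) (hq i).ρ (f ∘ₗ r)
    fun γ x => by simp [r1 γ x, f1 γ]
  replace g2 := g2 n0 X4
  obtain ⟨g, a1, a2, -, a3⟩ := extend (F i) (fun _ => ⊤) (fun _ _ _ _ => trivial)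
    (fun _ y _ h => by simpa using hF i y h) u (n0 + 1) 0 g0 (fun _ _ => by simp)
    (fun _ _ _ _ => trivial) (fun _ _ _ _ => by simp) g1 (fun _ _ => trivial) fun x hx => by
      apply hi i
      rw [LinearMap.zero_apply, zero_add, (hq i).d, map_smul, g2 _ (bd_gr hx),
        LinearMap.comp_apply, ← r3 _ x hx, ← f2 _ (by omega) _ (r2 _ x hx), E.dd, map_zero]
  simp only [LinearMap.zero_apply, zero_add] at a3
  have c3 : ∀ n, n0 + 1 ≤ n → ∀ x ∈ gr k G (n + 1),
      E.d (q i (g x) - f (r x)) = u • (q i (g (bd x)) - f (r (bd x))) := fun n hn x hx => by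
    rw [map_sub, ← (hq i).d, a3 n hn x hx, f2 _ (by omega) _ (r2 _ x hx), r3 _ x hx, map_smul,
      smul_sub]
  obtain ⟨h2, b1, -, -, b3⟩ := extend E (fun _ => ⊤) (fun _ _ _ _ => trivial)
    (fun _ y _ h => by simpa using hE y h) (-u) (n0 + 1) (q i ∘ₗ g - f ∘ₗ r) 0
    (fun γ x => by simp [a1 γ x, r1 γ x, f1 γ, (hq i).ρ])
    (fun _ _ _ _ => trivial)
    (fun n hn x hx => by
      simp only [LinearMap.sub_apply, LinearMap.comp_apply]
      rw [c3 _ (by omega) x hx, neg_smul, add_neg_cancel])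
    (fun _ _ => by simp) (fun _ _ => trivial) fun x hx => by
      simp only [LinearMap.sub_apply, LinearMap.comp_apply, LinearMap.zero_apply, smul_zero,
        add_zero]
      have h := bd_gr hx
      rw [c3 _ le_rfl x hx, a2 _ h, g2 _ h, LinearMap.comp_apply, sub_self, smul_zero]
  obtain ⟨m, hm, h1, c1, c2⟩ := hN i u hu g a1 (Ev.of_succ (n0 + 1) a3)
  refine ⟨m * u, mul_ne_zero hm hu, m • f ∘ₗ σ + u • q i ∘ₗ h1 - (m * u) • h2, fun γ x => by
    simp [s1 γ x, f1 γ, c1 γ x, b1 γ x, (hq i).ρ], ?_⟩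
  have e4 : Ev fun x => f x - f (r x) = f (bd (σ x)) + f (σ (bd x)) ∧
      E.d (f (σ x)) = u • f (bd (σ x)) :=
    Ev.of_succ n0 fun n hn x hx => ⟨by rw [← map_sub, s3 n x hx, map_add],
      f2 _ (by omega) _ (s2 _ x hx)⟩
  filter_upwards [c2, Ev.of_succ _ b3, e4] with n a b c x hx
  have e1 := congrArg (q i) (a x hx)
  have e2 := b x hx
  obtain ⟨e3, e4⟩ := c x hx
  simp only [map_add, map_smul, (hq i).d] at e1
  simp only [LinearMap.sub_apply, LinearMap.add_apply, LinearMap.smul_apply,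
    LinearMap.comp_apply, map_sub, map_add, map_smul] at e2 ⊢
  linear_combination (norm := module) (m * u) • e3 - m • e4 + u • e1 + (m * u) • e2

/-- Splitting a list into its head and its tail. -/
def hd (Φ : G → List G → M) : B k G →ₗ[k] M :=
  linearCombination k fun l => match l with
    | [] => 0
    | g :: l => Φ g l

omit [Group G] in
@[simp] lemma hd_nil (Φ : G → List G → M) (r : k) : hd Φ (single [] r) = 0 := by simp [hd]

omit [Group G] in
@[simp] lemma hd_cons (Φ : G → List G → M) (g : G) (l : List G) (r : k) :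
    hd Φ (single (g :: l) r) = r • Φ g l := by simp [hd]

/-- The cup product of the reversed front face with the value on the back face. -/
def cup (f : B k G →ₗ[k] D) (ν : B k G →ₗ[k] D →ₗ[k] M) : ℕ → B k G →ₗ[k] B k G →ₗ[k] M
  | 0 => hd fun g l => ν.flip (f (single (g :: l) 1)) ∘ₗ cons g
  | j + 1 => hd fun g l => cup f ν j (single l 1) ∘ₗ cons g

section cup

omit [Group G]

variable (f : B k G →ₗ[k] D) (ν : B k G →ₗ[k] D →ₗ[k] M)

lemma cup_nil (j : ℕ) (r : k) : cup f ν j (single [] r) = 0 := by cases j <;> simp [cup]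

lemma cup_zero (g : G) (y q : B k G) :
    cup f ν 0 (cons g y) q = ν (cons g q) (f (cons g y)) := by
  induction y using Finsupp.induction_linear with
  | zero => simp
  | add x y h1 h2 => simp only [map_add, LinearMap.add_apply, h1, h2]
  | single l r =>
    rw [← smul_single_one]
    simp [cup, -smul_single]

lemma cup_succ (j : ℕ) (g : G) (y q : B k G) :
    cup f ν (j + 1) (cons g y) q = cup f ν j y (cons g q) := by
  induction y using Finsupp.induction_linear with
  | zero => simp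
  | add x y h1 h2 => simp only [map_add, LinearMap.add_apply, h1, h2]
  | single l r =>
    rw [← smul_single_one]
    simp [cup, -smul_single]

lemma cons_ind {p : B k G → Prop} (h0 : ∀ r, p (single [] r))
    (h1 : ∀ g l r, p (cons g (single l r))) (ha : ∀ x y, p x → p y → p (x + y)) (y : B k G) :
    p y := by
  induction y using Finsupp.induction_linear with
  | zero => simpa using h0 0
  | add x y a b => exact ha x y a b
  | single l r =>
    cases l with
    | nil => exact h0 r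
    | cons g l => simpa using h1 g l r

lemma cup_map (ν' : B k G →ₗ[k] D →ₗ[k] M') (ψ : M →ₗ[k] M') (j a : ℕ)
    (h : ∀ σ ∈ gr k G (a + j + 1), ∀ e, ψ (ν σ e) = ν' σ e) (y : B k G) :
    ∀ q ∈ gr k G a, ψ (cup f ν j y q) = cup f ν' j y q := by
  induction j generalizing a y with
  | zero =>
    intro q hq
    induction y using cons_ind with
    | h0 r => simp [cup_nil]
    | h1 g l r => rw [cup_zero, cup_zero, h _ (cons_gr g hq)]
    | ha x y a b => simp only [map_add, LinearMap.add_apply, a, b]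
  | succ j ih =>
    intro q hq
    induction y using cons_ind with
    | h0 r => simp [cup_nil]
    | h1 g l r =>
      rw [cup_succ, cup_succ]
      exact ih (a + 1) (by rwa [add_right_comm a 1 j]) _ _ (cons_gr g hq)
    | ha x y a b => simp only [map_add, LinearMap.add_apply, a, b]

lemma cup_d (d : D →ₗ[k] D) (d' : M →ₗ[k] M) (hd : ∀ σ e, d' (ν σ e) = ν σ (d e)) (u : k) (n : ℕ)
    (hf : ∀ x ∈ gr k G (n + 2), d (f x) = u • f (bd x)) (j : ℕ) :
    ∀ y ∈ gr k G (n + 2 + j), ∀ q, d' (cup f ν j y q) = u • (cup f (ν ∘ₗ bd) (j + 1) y q +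
      (-1 : k) ^ j • (cup f ν j (bd y) q - cup f ν (j + 1) y (bd q))) := by
  induction j with
  | zero =>
    intro y hy q
    refine gr_ext (d' ∘ₗ (cup f ν 0).flip q) (u • ((cup f (ν ∘ₗ bd) 1).flip q +
      (-1 : k) ^ 0 • ((cup f ν 0).flip q ∘ₗ bd - (cup f ν 1).flip (bd q)))) (fun l hl => ?_) hy
    obtain ⟨g, l, rfl⟩ := List.exists_cons_of_length_eq_add_one hl
    obtain ⟨g', l, rfl⟩ := List.exists_cons_of_length_eq_add_one (Nat.succ.inj hl)
    have e := hf _ (single_mem_gr hl 1)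
    simp only [LinearMap.comp_apply, LinearMap.flip_apply, LinearMap.smul_apply,
      LinearMap.add_apply, LinearMap.sub_apply, pow_zero, one_smul]
    rw [← cons_single, ← cons_single] at e ⊢
    generalize (single l 1 : B k G) = y at e
    rw [bd_cons g] at e ⊢
    rw [cup_zero, hd, e, cup_succ, cup_succ, map_sub (cup f ν 0), LinearMap.sub_apply]
    simp only [cup_zero, LinearMap.comp_apply, bd_cons g', bd_cons g q, map_sub, map_smul,
      LinearMap.sub_apply]
    module
  | succ j ih =>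
    intro y hy q
    refine gr_ext (d' ∘ₗ (cup f ν (j + 1)).flip q) (u • ((cup f (ν ∘ₗ bd) (j + 2)).flip q +
      (-1 : k) ^ (j + 1) • ((cup f ν (j + 1)).flip q ∘ₗ bd - (cup f ν (j + 2)).flip (bd q))))
      (fun l hl => ?_) hy
    obtain ⟨g, l, rfl⟩ := List.exists_cons_of_length_eq_add_one hl
    have e := ih _ (single_mem_gr (Nat.succ.inj hl) 1) (cons g q)
    simp only [LinearMap.comp_apply, LinearMap.flip_apply, LinearMap.smul_apply,
      LinearMap.add_apply, LinearMap.sub_apply]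
    rw [← cons_single]
    generalize (single l 1 : B k G) = y at e
    simp only [cup_succ, e, bd_cons, map_sub, LinearMap.sub_apply, pow_succ]
    module

end cup

lemma cup_act (f : B k G →ₗ[k] D) (ν : B k G →ₗ[k] D →ₗ[k] M) (ρ : Representation k G D)
    (ρ' : Representation k G M) (hf : Eqv ρ f)
    (h : ∀ γ σ e, ν (act k G G γ σ) (ρ γ e) = ρ' γ (ν σ e)) (γ : G) (j : ℕ) (y q : B k G) :
    cup f ν j (act k G G γ y) (act k G G γ q) = ρ' γ (cup f ν j y q) := by
  have e : ∀ g z, act k G G γ (cons g z) = cons (γ • g) (act k G G γ z) :=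
    fun g z => lmap_cons _ g z
  induction j generalizing y q with
  | zero =>
    induction y using cons_ind with
    | h0 r => simp [cup_nil]
    | h1 g l r => rw [e, cup_zero, cup_zero, ← e, ← e, hf, h]
    | ha x y a b => simp only [map_add, LinearMap.add_apply, a, b]
  | succ j ih =>
    induction y using cons_ind with
    | h0 r => simp [cup_nil]
    | h1 g l r => rw [e, cup_succ, cup_succ, ← e, ih]
    | ha x y a b => simp only [map_add, LinearMap.add_apply, a, b]

lemma null_cup [IsDomain k] (E : DM k G D) (M : ℕ → Type) [∀ n, AddCommGroup (M n)]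
    [∀ n, Module k (M n)] (F : ∀ n, DM k G (M n)) (ε : M 0 →ₗ[k] D)
    (b : ∀ n, M (n + 1) →ₗ[k] M n) (hε : Mor (F 0) E ε) (hb : ∀ n, Mor (F (n + 1)) (F n) (b n))
    (e0 : ∀ y, ε (b 0 y) = 0) (e1 : ∀ n y, b n (b (n + 1) y) = 0)
    (μ : ∀ n, B k G →ₗ[k] D →ₗ[k] M n)
    (m1 : ∀ n γ σ e, μ n (act k G G γ σ) (E.ρ γ e) = (F n).ρ γ (μ n σ e))
    (m2 : ∀ n σ e, (F n).d (μ n σ e) = μ n σ (E.d e))
    (m3 : ∀ g e, ε (μ 0 (single [g] 1) e) = e)
    (m4 : ∀ n, ∀ σ ∈ gr k G (n + 2), ∀ e, b n (μ (n + 1) σ e) = μ n (bd σ) e) (N : ℕ)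
    (m5 : ∀ σ ∈ gr k G (N + 1), ∀ e, μ N σ e = 0) (hN : ∀ n, Null (F n)) : Null E := by
  intro u hu f f1 f2
  let H : ∀ n, B k G →ₗ[k] M n := fun n => (cup f (μ n) n).flip (single [] 1)
  have H1 : ∀ n, Eqv (F n).ρ (H n) := fun n γ y => by
    have := cup_act f (μ n) E.ρ (F n).ρ f1 (m1 n) γ n y (single [] 1)
    rwa [act_single, List.map_nil] at this
  have H2 : ∀ n, Ev fun y => (F n).d (H n y) =
      u • b n (H (n + 1) y) + ((-1) ^ n * u) • H n (bd y) := fun n => by
    obtain ⟨n0, f2⟩ := eventually_atTop.1 f2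
    refine eventually_atTop.2 ⟨n0 + 2 + n, fun a ha y hy => ?_⟩
    obtain ⟨a, rfl⟩ := Nat.exists_eq_add_of_le ha
    have e := cup_d f (μ n) E.d (F n).d (m2 n) u (n0 + a) (f2 _ (by omega)) n y
      (by rwa [show n0 + a + 2 + n = n0 + 2 + n + a by omega]) (single [] 1)
    have e' := cup_map f (μ (n + 1)) (μ n ∘ₗ bd) (b n) (n + 1) 0
      (fun σ hσ => m4 n σ (by rwa [zero_add] at hσ)) y _ (single_mem_gr (l := []) rfl 1)
    simp only [H, LinearMap.flip_apply]
    rw [e, e', bd_nil, map_zero]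
    module
  have key : ∀ j n, n + j = N → ∀ (D' : Type) [AddCommGroup D'] [Module k D'] (E' : DM k G D')
      (ψ : M n →ₗ[k] D'), Mor (F n) E' ψ → (∀ y, ψ (b n y) = 0) →
      ∃ m : k, m ≠ 0 ∧ ∃ a : B k G →ₗ[k] M n, Eqv (F n).ρ a ∧
        Ev fun y => m • ψ (H n y) = E'.d (ψ (a y)) + ((-1) ^ n * u) • ψ (a (bd y)) := by
    intro j
    induction j with
    | zero =>
      rintro n rfl D' _ _ E' ψ _ _
      refine ⟨1, one_ne_zero, 0, fun _ _ => by simp, Eventually.of_forall fun _ y _ => ?_⟩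
      have e := cup_map f (μ n) 0 LinearMap.id n 0
        (fun σ hσ => m5 σ (by rwa [zero_add] at hσ)) y _ (single_mem_gr (l := []) rfl 1)
      have e' := cup_map f (0 : B k G →ₗ[k] D →ₗ[k] M n) 0 (0 : M n →ₗ[k] M n) n 0
        (fun _ _ _ => rfl) y _ (single_mem_gr (l := []) rfl 1)
      have : H n y = 0 := e.trans e'.symm
      simp [this]
    | succ j ih =>
      intro n hn D' _ _ E' ψ p1 p2
      obtain ⟨m, hm, a, a1, a2⟩ := ih (n + 1) (by omega) _ (F n) (b n) (hb n) (e1 n)
      have hv : (-1) ^ n * u ≠ 0 := mul_ne_zero (pow_ne_zero _ (neg_ne_zero.2 one_ne_zero)) hu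
      obtain ⟨m', hm', a', b1, b2⟩ := hN n _ hv (m • H n - u • b n ∘ₗ a)
        (fun γ y => by simp [H1 n γ y, a1 γ y, (hb n).ρ]) (by
          filter_upwards [a2, H2 n] with i c1 c2 y hy
          have c1 := c1 y hy
          simp only [LinearMap.sub_apply, LinearMap.smul_apply, LinearMap.comp_apply, map_sub,
            map_smul, c2 y hy, pow_succ] at c1 ⊢
          linear_combination (norm := module) u • c1)
      refine ⟨m' * m, mul_ne_zero hm' hm, a', b1, ?_⟩
      filter_upwards [b2] with i c y hy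
      have c := congrArg ψ (c y hy)
      simp only [LinearMap.sub_apply, LinearMap.smul_apply, LinearMap.comp_apply, map_sub,
        map_smul, map_add, p2, smul_zero, sub_zero, p1.d] at c
      rw [mul_smul, c]
  obtain ⟨m, hm, a, a1, a2⟩ := key N 0 (zero_add N) D E ε hε e0
  refine ⟨m, hm, ε ∘ₗ a, fun γ y => by simp [a1 γ y, hε.ρ], ?_⟩
  have H0 : Ev fun y => ε (H 0 y) = f y := Ev.of_succ 0 fun n _ y hy =>
    gr_ext (ε ∘ₗ H 0) f (fun l hl => by
      obtain ⟨g, l, rfl⟩ := List.exists_cons_of_length_eq_add_one hl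
      simp only [H, LinearMap.comp_apply, LinearMap.flip_apply]
      rw [← cons_single, cup_zero, cons_single g [], m3]) hy
  filter_upwards [a2, H0] with n c1 c2 y hy
  simpa [c2 y hy] using c1 y hy

end Pool.Agent.Lib.MP_2fb4be_al.Sol.K
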