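import Pool.Agent.Lib.MP_2fb4be_al.DC.Alg

/-!
Families of chains of bounded size whose vertices are controlled.
-/

set_option autoImplicit false
set_option linter.unusedSectionVars false

noncomputable section

namespace Pool.Agent.Lib.MP_2fb4be_al.Sol.K

open Finsupp hiding cons
open Filter Pool.Agent.Lib.MP_f0c981_al

variable {k : Type} [CommRing k] {α β S S' : Type}

/-- Functions with finitely many values. -/
def FR (k α : Type) [CommRing k] : Submodule k (α → k) where
  carrier := {r | (Set.range r).Finite}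
  add_mem' := fun {u v} a b => (a.image2 (· + ·) b).subset (by
    rintro _ ⟨n, rfl⟩
    exact ⟨_, ⟨n, rfl⟩, _, ⟨n, rfl⟩, rfl⟩)
  zero_mem' := (Set.finite_singleton 0).subset (by rintro _ ⟨n, rfl⟩; rfl)
  smul_mem' := fun c u a => (a.image (c • ·)).subset (by
    rintro _ ⟨n, rfl⟩
    exact ⟨_, ⟨n, rfl⟩, rfl⟩)

lemma FR_mul {u v : α → k} (a : u ∈ FR k α) (b : v ∈ FR k α) : (fun n => u n * v n) ∈ FR k α :=
  (Set.Finite.image2 (· * ·) a b).subset (by
    rintro _ ⟨n, rfl⟩
    exact ⟨_, ⟨n, rfl⟩, _, ⟨n, rfl⟩, rfl⟩)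

lemma FR_const (c : k) : (fun _ => c) ∈ FR k α :=
  (Set.finite_singleton c).subset (by rintro _ ⟨n, rfl⟩; rfl)

lemma FR_ite (p : α → Prop) [DecidablePred p] {u v : α → k} (a : u ∈ FR k α) (b : v ∈ FR k α) :
    (fun n => if p n then u n else v n) ∈ FR k α :=
  (Set.Finite.union a b).subset (by
    rintro _ ⟨n, rfl⟩
    beta_reduce
    split_ifs
    · exact Or.inl ⟨n, rfl⟩
    · exact Or.inr ⟨n, rfl⟩)

lemma FR_comp (φ : β → α) {u : α → k} (a : u ∈ FR k α) : (fun n => u (φ n)) ∈ FR k β :=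
  Set.Finite.subset a (Set.range_comp_subset_range φ u)

/-- An ideal of families of vertex sets. -/
structure Ctl (α S : Type) where
  p : (α → Set S) → Prop
  empty : p fun _ => ∅
  mono : ∀ {V V' : α → Set S}, (∀ a, V a ⊆ V' a) → p V' → p V
  union : ∀ {V V' : α → Set S}, p V → p V' → p fun a => V a ∪ V' a

/-- No control. -/
def Ctl.top (α S : Type) : Ctl α S := ⟨fun _ => True, trivial, fun _ _ => trivial, fun _ _ => trivial⟩

lemma Ctl.biUnion (C : Ctl α S) {ι : Type} {I : Set ι} (hI : I.Finite) (V : ι → α → Set S)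
    (h : ∀ i ∈ I, C.p (V i)) : C.p fun a => ⋃ i ∈ I, V i a := by
  induction I, hI using Set.Finite.induction_on with
  | empty => simpa using C.empty
  | insert _ _ ih =>
    simpa using C.union (h _ (Set.mem_insert _ _)) (ih fun i hi => h i (Set.mem_insert_of_mem _ hi))

/-- Controlled families of chains. -/
def BV (k : Type) [CommRing k] (C : Ctl α S) (m : ℕ) : Submodule k (α → B k S) :=
  Submodule.span k {y | ∃ (l : α → List S) (r : α → k), (∀ a, (l a).length = m) ∧ r ∈ FR k α ∧
    C.p (fun a => {z | z ∈ l a}) ∧ y = fun a => single (l a) (r a)}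

variable {C : Ctl α S} {m : ℕ}

lemma BV_gen (l : α → List S) {r : α → k} (h : ∀ a, (l a).length = m) (hr : r ∈ FR k α)
    (hc : C.p fun a => {z | z ∈ l a}) : (fun a => single (l a) (r a)) ∈ BV k C m :=
  Submodule.subset_span ⟨l, r, h, hr, hc, rfl⟩

lemma BV_map {M : Type} [AddCommGroup M] [Module k M] (φ : β → α) (F : β → B k S →ₗ[k] M)
    (W : Submodule k (β → M)) (h : ∀ (l : α → List S) (r : α → k), (∀ a, (l a).length = m) →
      r ∈ FR k α → C.p (fun a => {z | z ∈ l a}) →
        (fun b => F b (single (l (φ b)) (r (φ b)))) ∈ W) {y : α → B k S} (hy : y ∈ BV k C m) :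
    (fun b => F b (y (φ b))) ∈ W := by
  have : BV k C m ≤ W.comap (LinearMap.pi fun b => F b ∘ₗ LinearMap.proj (φ b)) :=
    Submodule.span_le.2 (by rintro _ ⟨l, r, h1, h2, h3, rfl⟩; exact h l r h1 h2 h3)
  exact this hy

lemma BV_comp {C' : Ctl β S} (φ : β → α) (h : ∀ V, C.p V → C'.p fun b => V (φ b))
    {y : α → B k S} (hy : y ∈ BV k C m) : (fun b => y (φ b)) ∈ BV k C' m := by
  refine BV_map φ (fun _ => (LinearMap.id : B k S →ₗ[k] B k S)) (BV k C' m)
    (fun l r h1 h2 h3 => ?_) hy
  simp only [LinearMap.id_apply]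
  exact BV_gen (fun b => l (φ b)) (r := fun b => r (φ b)) (fun _ => h1 _) (FR_comp φ h2) (h _ h3)

lemma BV_smul {s : α → k} (hs : s ∈ FR k α) {y : α → B k S} (hy : y ∈ BV k C m) :
    (fun a => s a • y a) ∈ BV k C m :=
  BV_map id (fun a => s a • LinearMap.id) _ (fun l r h1 h2 h3 => by
    simpa using BV_gen l h1 (FR_mul hs h2) h3) hy

lemma ctl_cons {v : α → S} (hv : C.p fun a => {v a}) {l : α → List S}
    (h : C.p fun a => {z | z ∈ l a}) : C.p fun a => {z | z ∈ v a :: l a} :=
  C.mono (fun _ _ hz => List.mem_cons.1 hz) (C.union hv h)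

lemma BV_cons {v : α → S} (hv : C.p fun a => {v a}) {y : α → B k S} (hy : y ∈ BV k C m) :
    (fun a => cons (v a) (y a)) ∈ BV k C (m + 1) :=
  BV_map id (fun a => cons (v a)) _ (fun l r h1 h2 h3 => by
    simpa using BV_gen (fun a => v a :: l a) (fun a => by simp [h1]) h2 (ctl_cons hv h3)) hy

lemma BV_ncons {v : α → S} (hv : C.p fun a => {v a}) {y : α → B k S} (hy : y ∈ BV k C m) :
    (fun a => ncons (v a) (y a)) ∈ BV k C (m + 1) := by
  classical
  refine BV_map id (fun a => ncons (v a)) _ (fun l r h1 h2 h3 => ?_) hy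
  have := BV_gen (m := m + 1) (fun a => v a :: l a) (fun a => by simp [h1])
    (FR_ite (fun a => (l a).head? = some (v a)) (FR_const 0) h2) (ctl_cons hv h3)
  refine (congrArg (· ∈ BV k C (m + 1)) (funext fun a => ?_)).mp this
  by_cases e : (l a).head? = some (v a) <;> simp [ncons, e]

lemma BV_bd {y : α → B k S} (hy : y ∈ BV k C (m + 1)) : (fun a => bd (y a)) ∈ BV k C m := by
  induction m generalizing y with
  | zero =>
    refine BV_map id (fun _ => bd) _ (fun l r h1 h2 _ => ?_) hy
    choose v hv using fun a => List.length_eq_one_iff.1 (h1 a)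
    simpa [hv, bd_single_cons] using BV_gen (C := C) (fun _ => []) (fun _ => rfl) h2
      (by simpa using C.empty)
  | succ m ih =>
    refine BV_map id (fun _ => bd) _ (fun l r h1 h2 h3 => ?_) hy
    choose v l' hv using fun a => List.exists_cons_of_length_eq_add_one (h1 a)
    have h4 := BV_gen (C := C) l' (m := m + 1) (fun a => by simpa [hv] using h1 a) h2
      (C.mono (fun a z hz => by rw [hv]; exact List.mem_cons_of_mem _ hz) h3)
    simp only [id, hv, bd_single_cons]
    exact sub_mem h4 (BV_cons (C.mono (fun a z hz => by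
      rw [hv, hz]; exact List.mem_cons_self) h3) (ih h4))

lemma BV_gr {y : α → B k S} (hy : y ∈ BV k C m) (a : α) : y a ∈ gr k S m :=
  BV_map id (fun _ => LinearMap.id) (Submodule.pi Set.univ fun _ => gr k S m)
    (fun _ _ h1 _ _ a _ => single_mem_gr (h1 a) _) hy a trivial

lemma BV_bd' {y : α → B k S} (hy : y ∈ BV k C m) : (fun a => bd (y a)) ∈ BV k C (m - 1) := by
  cases m with
  | zero =>
    rw [funext fun a => bd_gr_zero (BV_gr hy a)]
    exact zero_mem _
  | succ m => exact BV_bd hy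

lemma BV_Mh (s : α → S → k) (hs : (fun z : α × S => s z.1 z.2) ∈ FR k (α × S)) {y : α → B k S}
    (hy : y ∈ BV k C m) : (fun a => Mh (s a) (y a)) ∈ BV k C m := by
  refine BV_map id (fun a => Mh (s a)) _ (fun l r h1 h2 h3 => ?_) hy
  cases m with
  | zero =>
    simp only [id, fun a => List.length_eq_zero_iff.1 (h1 a), Mh_nil]
    exact zero_mem _
  | succ m =>
    choose v l' hv using fun a => List.exists_cons_of_length_eq_add_one (h1 a)
    have := BV_gen l h1 (FR_mul (FR_comp (fun a => (a, v a)) hs) h2) h3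
    refine (congrArg (· ∈ BV k C (m + 1)) (funext fun a => ?_)).mp this
    rw [id, hv a, ← cons_single (v a) (l' a) (r a), Mh_cons]
    simp

lemma BV_fI [LinearOrder S] (μ : List S → S) (hμ : ∀ l, l ≠ [] → μ l ∈ l) {y : α → B k S}
    (hy : y ∈ BV k C m) : (fun a => fI μ m (y a)) ∈ BV k C m := by
  induction m generalizing y with
  | zero => exact hy
  | succ m ih =>
    refine BV_map id (fun _ => fI μ (m + 1)) _ (fun l r h1 h2 h3 => ?_) hy
    have := BV_ncons (v := fun a => μ (l a)) (C.mono (fun a z hz => by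
      rw [hz]; exact hμ _ (ne_nil_of_length (h1 a))) h3) (ih (BV_bd (BV_gen l h1 h2 h3)))
    refine (congrArg (· ∈ BV k C (m + 1)) (funext fun a => ?_)).mp this
    rw [id, ← smul_single_one (l a), map_smul, map_smul, map_smul, map_smul, fI_single]

lemma BV_Ph {ι : Type} (s : α → ι → S → k)
    (hs : ∀ i, (fun z : α × S => s z.1 i z.2) ∈ FR k (α × S)) (J : List ι) {y : α → B k S}
    (hy : y ∈ BV k C m) : (fun a => Ph (s a) J (y a)) ∈ FR k α := by
  induction J generalizing y m with
  | nil =>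
    classical
    refine BV_map id (fun _ => lapply []) (FR k α) (fun l r _ h2 _ => ?_) (BV_bd' hy)
    simpa [single_apply] using FR_ite (fun a => l a = []) h2 (FR_const 0)
  | cons i J ih => exact ih (BV_Mh (fun a => s a i) (hs i) (BV_bd' hy))

/-- Families with finitely many shapes. -/
lemma span_shape {Λ : Type} (W : Submodule k (α → Λ →₀ k)) (w : α → S' →₀ k)
    (hw : (Set.range w).Finite) (V : α → S' → Λ)
    (h : ∀ s, (∃ a, w a s ≠ 0) → (fun a => w a s) ∈ FR k α →
      (fun a => single (V a s) (w a s)) ∈ W) : (fun a => mapDomain (V a) (w a)) ∈ W := by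
  classical
  let T : Finset S' := hw.toFinset.biUnion Finsupp.support
  have hT : ∀ a, (w a).support ⊆ T := fun a s hs =>
    Finset.mem_biUnion.2 ⟨w a, hw.mem_toFinset.2 ⟨a, rfl⟩, hs⟩
  have e : (fun a => mapDomain (V a) (w a)) = ∑ s ∈ T, fun a => single (V a s) (w a s) := by
    funext a
    rw [Finset.sum_apply, mapDomain, Finsupp.sum_of_support_subset _ (hT a) _ (by simp)]
  rw [e]
  refine sum_mem fun s hs => h s ?_ ((hw.image fun y => y s).subset ?_)
  · obtain ⟨_, h1, h2⟩ := Finset.mem_biUnion.1 hs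
    obtain ⟨a, rfl⟩ := hw.mem_toFinset.1 h1
    exact ⟨a, mem_support_iff.1 h2⟩
  · rintro _ ⟨a, rfl⟩
    exact ⟨_, ⟨a, rfl⟩, rfl⟩

lemma gr_len {x : B k S} (hx : x ∈ gr k S m) {l : List S} (h : x l ≠ 0) : l.length = m :=
  gr_map LinearMap.id (supported k k {w : List S | w.length = m})
    (fun _ hw => single_mem_supported k (s := {w : List S | w.length = m}) _ hw) hx
    (mem_support_iff.2 h)

lemma BV_shape (w : α → B k S') (hw : (Set.range w).Finite) (hm : ∀ a, w a ∈ gr k S' m)
    (V : α → S' → S) (h : ∀ s a l, w a l ≠ 0 → s ∈ l → C.p fun a => {V a s}) :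
    (fun a => lmap (V a) (w a)) ∈ BV k C m := by
  refine span_shape _ w hw (fun a => List.map (V a)) fun l ⟨a, ha⟩ hr => BV_gen _
    (fun _ => by rw [List.length_map]; exact gr_len (hm a) ha) hr
    (C.mono (fun b z hz => ?_) (C.biUnion (List.finite_toSet l) (fun s b => {V b s})
      fun s hs => h s a l ha hs))
  obtain ⟨s, hs, rfl⟩ := List.mem_map.1 hz
  exact Set.mem_iUnion₂.2 ⟨s, hs, rfl⟩

lemma BV_supp {y : α → B k S} (hy : y ∈ BV k C m) : ∃ V, C.p V ∧ ∀ a, y a ∈ Sp k (V a) := by
  induction hy using Submodule.span_induction with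
  | mem y h =>
    obtain ⟨l, r, -, -, h, rfl⟩ := h
    exact ⟨_, h, fun a => single_mem_supported k _ fun _ hz => hz⟩
  | zero => exact ⟨_, C.empty, fun _ => zero_mem _⟩
  | add x y _ _ a b =>
    obtain ⟨V, a1, a2⟩ := a
    obtain ⟨V', b1, b2⟩ := b
    exact ⟨_, C.union a1 b1, fun a => add_mem (Sp_mono Set.subset_union_left (a2 a))
      (Sp_mono Set.subset_union_right (b2 a))⟩
  | smul c x _ a =>
    obtain ⟨V, a1, a2⟩ := a
    exact ⟨V, a1, fun a => Submodule.smul_mem _ c (a2 a)⟩

end Pool.Agent.Lib.MP_2fb4be_al.Sol.K
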