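import Pool.Agent.Lib.MP_2fb4be_al.DC.Main
import Pool.Agent.Lib.MP_2fb4be_al.FD.Shadow

/-!
The class `DC` contains the relative hierarchy `RH`, the groups with a finite-dimensional action and
the groups of weak finite decomposition complexity.
-/

set_option autoImplicit false

noncomputable section

namespace Pool.Agent.Lib.MP_2fb4be_al.Sol

variable {G Γ : Type} [Group G] [Group Γ] {k : Type} [CommRing k] {ξ : Γ}

lemma dc_small (hξ : ¬ IsOfFinOrder ξ) (F : ℕ) : DC k ξ {X | X.encard ≤ F} :=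
  DC.thin _ F fun X hX g => (enc_pow hξ X g).trans hX

lemma enc_bdd {X : Set Γ} {T : Finset Γ} (h : ∀ a ∈ X, ∀ b ∈ X, a⁻¹ * b ∈ T) :
    X.encard ≤ T.card := by
  rcases X.eq_empty_or_nonempty with rfl | ⟨a, ha⟩
  · simp
  · rw [← Set.encard_coe_eq_coe_finsetCard]
    exact Set.encard_le_encard_of_injOn (f := (a⁻¹ * ·)) (fun b hb => h a ha b hb)
      fun _ _ _ _ e => mul_left_cancel e

lemma fin_diff {K : Type} [Group K] (φ : K →* Γ) (hφ : Function.Injective φ) (T : Finset Γ) :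
    ∃ S : Finset K, ∀ a g b, g⁻¹ * b ∈ T → g⁻¹ * (b * φ a) ∈ T → a ∈ S :=
  ⟨((T.finite_toSet.image2 (fun s t => s⁻¹ * t) T.finite_toSet).preimage hφ.injOn).toFinset,
    fun a g b h1 h2 => (Set.Finite.mem_toFinset _).2 ⟨_, h1, _, h2, by group⟩⟩

lemma range_sub {K : Type} [Group K] (φ : K →* Γ) (H : Subgroup K) :
    (φ.comp H.subtype).range = H.map φ := by
  rw [MonoidHom.range_comp, Subgroup.range_subtype]

theorem dc_of_RH (hξ : ¬ IsOfFinOrder ξ) {K : Type} [Group K] {S : Set K} (h : RH k K S) :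
    ∀ φ : K →* Γ, Function.Injective φ → (∀ a, (∃ n : ℤ, n ≠ 0 ∧ IsConj (ξ ^ n) (φ a)) → a ∈ S) →
      DC k ξ (cosets φ.range) := by
  classical
  induction h with
  | base K =>
    refine fun φ _ hS => DC.thin _ 1 ?_
    rintro _ ⟨γ, rfl⟩ g
    refine Set.encard_le_one_iff.2 fun n m hn hm => by_contra fun e => ?_
    obtain ⟨a, ha⟩ := φ.range.mul_mem hn (φ.range.inv_mem hm)
    refine hS a ⟨(n : ℤ) - m, by omega, isConj_iff.2 ⟨γ⁻¹, ?_⟩⟩
    rw [ha]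
    group
  | fd K S P N h => exact fun φ hφ _ => DC.fd K φ hφ P N h
  | asd K S _ h =>
    intro φ hφ _
    obtain ⟨d, h⟩ := h
    choose 𝒰 u1 u2 u3 using h
    choose U u1 u1' using u1
    choose T' u2 using u2
    choose σ hσ using fin_diff φ hφ
    refine DC.dec _ (d + 1) (fun T => {X | X.encard ≤ (T' (σ T)).card})
      (fun T => dc_small hξ _) fun T => ⟨{1}, ?_⟩
    rintro _ ⟨γ, rfl⟩
    have : ∀ g, ∃ a, γ⁻¹ * g ∈ φ.range → φ a = γ⁻¹ * g := fun g => by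
      by_cases e : γ⁻¹ * g ∈ φ.range
      · exact e.imp fun _ h _ => h
      · exact ⟨1, fun e' => absurd e' e⟩
    choose κ hκ using this
    refine ⟨fun g => (fun a => γ * φ a) '' U (σ T) (κ g), fun g hg =>
      ⟨(Set.encard_image_le _ _).trans (enc_bdd (u2 _ _ (u1 _ _))), 1, by simp,
        κ g, u1' _ _, by simp [hκ g hg]⟩, fun g => ?_⟩
    rcases Set.eq_empty_or_nonempty {a ∈ {g | γ⁻¹ * g ∈ φ.range} | g⁻¹ * a ∈ T} with e | ⟨b, b1, b2⟩
    · rw [e]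
      simp
    refine le_trans (Set.encard_le_encard ?_) ((Set.encard_image_le
      (fun V => (fun a => γ * φ a) '' V) _).trans (u3 (σ T) (κ b)))
    rintro _ ⟨a, ⟨a1, a2⟩, rfl⟩
    refine ⟨_, ⟨u1 _ (κ a), (κ b)⁻¹ * κ a, hσ T _ g b b2 ?_, by simp [u1']⟩, rfl⟩
    rwa [map_mul, map_inv, hκ a a1, hκ b b1, show b * ((γ⁻¹ * b)⁻¹ * (γ⁻¹ * a)) = a by group]
  | act K S X d ε hd hε h0 h1 h2 N hN _ ih =>
    exact fun φ hφ hS => DC.act K φ hφ X d ε hd hε h0 h1 h2 N hN fun n x =>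
      range_sub φ _ ▸ ih n x _ (hφ.comp Subtype.val_injective) fun a => hS a.1
  | loc K S _ ih =>
    intro φ hφ hS
    choose σ hσ using fin_diff φ hφ
    refine DC.dec _ 1 (fun T => cosets ((Subgroup.closure (σ T : Set K)).map φ))
      (fun T => range_sub φ _ ▸ ih _ ⟨σ T, rfl⟩ _ (hφ.comp Subtype.val_injective) fun a => hS a.1)
      fun T => ⟨{1}, ?_⟩
    rintro _ ⟨γ, rfl⟩
    refine ⟨fun g => {h | g⁻¹ * h ∈ (Subgroup.closure (σ T : Set K)).map φ},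
      fun g _ => ⟨⟨g, rfl⟩, 1, by simp, 1, one_mem _, by simp⟩,
      fun g => Set.encard_le_one_iff.2 ?_⟩
    rintro _ _ ⟨a, ⟨a1, a2⟩, rfl⟩ ⟨b, ⟨b1, b2⟩, rfl⟩
    obtain ⟨s, hs⟩ := φ.range.mul_mem (φ.range.inv_mem b1) a1
    have e : a = b * φ s := by rw [hs]; group
    have m : φ s ∈ (Subgroup.closure (σ T : Set K)).map φ :=
      ⟨s, Subgroup.subset_closure (hσ T s g b b2 (e ▸ a2)), rfl⟩
    ext z
    simp only [Set.mem_ofPred_eq, e, mul_inv_rev, mul_assoc]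
    exact Subgroup.mul_mem_cancel_left _ (inv_mem m)

lemma cosets_top : cosets (MonoidHom.id Γ).range = {Set.univ} := by
  ext X
  simp [cosets]

theorem dc_of_action (X : Type) [MulAction Γ X] (d : ℕ)
    (hX : ∀ S : Finset Γ, ∃ (F : ℕ) (ι : Type) (π : X → ι), (∀ i, (π ⁻¹' {i}).encard ≤ F) ∧
      ∀ z, ((fun s : Γ => π (s • z)) '' S).encard ≤ d) (H : ¬ ∃ n, 0 < n ∧ ∀ z : X, ξ ^ n • z = z) :
    DC k ξ {Set.univ} := by
  classical
  have key : ∀ S : Finset Γ, ∃ F : ℕ, ∀ M : ℕ, ∃ (ι : Type) (π : Γ → ι),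
      (∀ g, ((fun s => π (g * s)) '' S).encard ≤ d) ∧
      ∀ g i, {n | n < M ∧ π (ξ ^ n * g) = i}.encard ≤ F := fun S => by
    obtain ⟨F, ι, π, p1, p2⟩ := hX (S.image (·⁻¹))
    refine ⟨F, fun M => ?_⟩
    push Not at H
    obtain ⟨z, hz⟩ := H M.factorial M.factorial_pos
    refine ⟨ι, fun g => π (g⁻¹ • z), fun g => le_trans (Set.encard_le_encard ?_) (p2 (g⁻¹ • z)),
      fun g i => le_trans (Set.encard_le_encard_of_injOn (f := fun n => (ξ ^ n * g)⁻¹ • z)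
        (fun n hn => hn.2) ?_) (p1 i)⟩
    · rintro _ ⟨s, hs, rfl⟩
      exact ⟨_, Finset.mem_image_of_mem _ hs, by simp [smul_smul]⟩
    · have key : ∀ n m, n < m → m < M → (ξ ^ n * g)⁻¹ • z ≠ (ξ ^ m * g)⁻¹ • z := by
        intro n m a1 a2 e
        obtain ⟨j, rfl⟩ := Nat.exists_eq_add_of_lt a1
        obtain ⟨r, hr⟩ := Nat.dvd_factorial j.succ_pos (show j + 1 ≤ M by omega)
        have e1 : ξ ^ (j + 1) ∈ MulAction.stabilizer Γ z := by
          rw [eq_inv_smul_iff, smul_smul] at e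
          rwa [show ξ ^ (j + 1) = ξ ^ (n + j + 1) * g * (ξ ^ n * g)⁻¹ by group]
        exact hz (by rw [hr, pow_mul]; exact pow_mem e1 r)
      intro n hn m hm e
      rcases lt_trichotomy n m with a | a | a
      · exact absurd e (key n m a hm.1)
      · exact a
      · exact absurd e.symm (key m n a hn.1)
  choose F hF using key
  choose π p1 p2 using fun S => lim_colour ξ S d (F S) (hF S)
  refine DC.dec _ d (fun T => Set.range fun i => π T ⁻¹' {i}) (fun T => DC.thin _ (F T) ?_)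
    fun T => ⟨{1}, ?_⟩
  · rintro _ ⟨i, rfl⟩ g
    refine le_of_not_gt fun e => ?_
    obtain ⟨V, v1, v2⟩ := Set.exists_subset_encard_eq (Order.add_one_le_of_lt e)
    obtain ⟨V, rfl⟩ := (Set.finite_of_encard_eq_coe (k := F T + 1) v2).exists_finset_coe
    have := p2 T g i V fun n hn => v1 hn
    rw [Set.encard_coe_eq_coe_finsetCard] at v2
    norm_cast at v2
    omega
  · rintro _ rfl
    refine ⟨fun g => π T ⁻¹' {π T g}, fun g _ => ⟨⟨_, rfl⟩, 1, by simp, by simp⟩, fun g => ?_⟩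
    obtain ⟨V, v1, v3, v2⟩ := (Set.surjOn_image (π T) {a | g⁻¹ * a ∈ T}).exists_subset_injOn_image_eq
    obtain ⟨V, rfl⟩ := (((T.finite_toSet.preimage (f := (g⁻¹ * ·))
      (mul_right_injective _).injOn)).subset v1).exists_finset_coe
    have := p1 T g V v1 v3
    refine le_trans (Set.encard_le_encard ?_) ((Set.encard_image_le
      (fun a => π T ⁻¹' {π T a}) V).trans (by simpa using this))
    rintro _ ⟨a, ⟨-, ha⟩, rfl⟩
    obtain ⟨b, b1, b2⟩ := v2.symm.subset ⟨a, ha, rfl⟩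
    exact ⟨b, b1, by simp only [b2]⟩

/-- Weak finite decomposition complexity of a family of subsets of a group. -/
inductive WFDC {Γ : Type} [Group Γ] : Set (Set Γ) → Prop
  | bdd (𝒳 : Set (Set Γ)) (T : Finset Γ) (h : ∀ X ∈ 𝒳, ∀ a ∈ X, ∀ b ∈ X, a⁻¹ * b ∈ T) : WFDC 𝒳
  | dec (𝒳 : Set (Set Γ)) (d : ℕ) (𝒴 : Finset Γ → Set (Set Γ)) (h𝒴 : ∀ T, WFDC (𝒴 T))
      (h : ∀ T : Finset Γ, ∀ X ∈ 𝒳, ∃ P : Fin (d + 1) → Set (Set Γ), (∀ i, P i ⊆ 𝒴 T) ∧
        (∀ g ∈ X, ∃ i, ∃ Y ∈ P i, g ∈ Y) ∧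
        ∀ i, ∀ Y ∈ P i, ∀ Y' ∈ P i, ∀ a ∈ Y, ∀ b ∈ Y', a⁻¹ * b ∈ T → Y = Y') : WFDC 𝒳

theorem dc_of_wfdc (hξ : ¬ IsOfFinOrder ξ) {𝒳 : Set (Set Γ)} (h : WFDC 𝒳) : DC k ξ 𝒳 := by
  induction h with
  | bdd 𝒳 T h => exact DC.thin _ T.card fun X hX g => (enc_pow hξ X g).trans (enc_bdd (h X hX))
  | dec 𝒳 d 𝒴 _ h ih =>
    choose σ hσ using fin_diff (MonoidHom.id Γ) fun _ _ e => e
    refine DC.dec _ (d + 1) (fun T => 𝒴 (σ T)) (fun T => ih _) fun T => ⟨{1}, fun X hX => ?_⟩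
    obtain ⟨P, p1, p2, p3⟩ := h (σ T) X hX
    choose! i Y y1 y2 using p2
    refine ⟨Y, fun g hg => ⟨p1 _ (y1 g hg), 1, by simp, by simpa using y2 g hg⟩, fun g => ?_⟩
    have : ∀ V, ∃ j, ∀ a ∈ X, Y a = V → V ∈ P j := fun V => by
      by_cases e : ∃ a ∈ X, Y a = V
      · obtain ⟨a, ha, rfl⟩ := e
        exact ⟨i a, fun _ _ _ => y1 a ha⟩
      · exact ⟨0, fun a ha e' => absurd ⟨a, ha, e'⟩ e⟩
    choose j hj using this
    refine (Set.encard_le_encard_of_injOn (f := j) (t := Set.univ) (fun _ _ => trivial) ?_).trans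
      (by simp)
    rintro _ ⟨a, ⟨a1, a2⟩, rfl⟩ _ ⟨b, ⟨b1, b2⟩, rfl⟩ e
    exact p3 _ _ (hj _ a a1 rfl) _ (e ▸ hj _ b b1 rfl) a (y2 a a1) b (y2 b b1)
      (hσ T (a⁻¹ * b) g a a2 (by simpa using b2))

variable (hG : IsAutomatic G) (x y : G) (p q : ℤ) (hpq : |p| ≠ |q|)
  (h : y * x ^ p * y⁻¹ = x ^ q) (c : G → Γ) (h1 : ∀ g, c (x * g) = ξ * c g)
  (h2 : ∀ s, (Set.range fun g => (c g)⁻¹ * c (g * s)).Finite)
include hG hpq h h1 h2

/-- The statement of `CoarseHosts` in characteristic zero. -/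
theorem coarse_of_dc [IsDomain k] [CharZero k]
    (hΓ : RH k Γ {z | ∃ n : ℤ, n ≠ 0 ∧ IsConj (ξ ^ n) z}) : IsOfFinOrder ξ :=
  by_contra fun hξ => hξ (rel_dc k (combable_of_automatic hG) x y p q hpq h ξ c h1 h2
    (cosets_top (Γ := Γ) ▸ dc_of_RH hξ hΓ _ (fun _ _ e => e) fun _ e => e))

/-- The statement of `SchreierHosts`. -/
theorem schreier_of_dc (X : Type) [MulAction Γ X] (d : ℕ)
    (hX : ∀ S : Finset Γ, ∃ (F : ℕ) (ι : Type) (π : X → ι), (∀ i, (π ⁻¹' {i}).encard ≤ F) ∧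
      ∀ z, ((fun s : Γ => π (s • z)) '' S).encard ≤ d) :
    ∃ n, 0 < n ∧ ∀ z : X, ξ ^ n • z = z :=
  by_contra fun H => by
    obtain ⟨n, hn, e⟩ := isOfFinOrder_iff_pow_eq_one.1
      (rel_dc ℤ (combable_of_automatic hG) x y p q hpq h ξ c h1 h2 (dc_of_action X d hX H))
    exact H ⟨n, hn, fun z => by rw [e, one_smul]⟩

/-- Weak finite decomposition complexity. -/
theorem wfdc_of_dc (hΓ : WFDC {(Set.univ : Set Γ)}) : IsOfFinOrder ξ :=
  by_contra fun hξ => hξ (rel_dc ℤ (combable_of_automatic hG) x y p q hpq h ξ c h1 h2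
    (dc_of_wfdc hξ hΓ))

end Pool.Agent.Lib.MP_2fb4be_al.Sol
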