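import Pool.Agent.Lib.MP_2fb4be_al.DC.Dec

/-!
A proper chain map of finite length bounds the distortion of a cyclic subgroup of a combable group.
-/

set_option autoImplicit false
set_option linter.unusedSectionVars false

noncomputable section

namespace Pool.Agent.Lib.MP_2fb4be_al.Sol.K

open Finsupp hiding cons
open Filter Pool.Agent.Lib.MP_f0c981_al

variable {k : Type} [CommRing k] {G Γ : Type} [Group G] [Group Γ]

/-- Sequences whose sums take finitely many values. -/
def NF (k : Type) [CommRing k] : Submodule k (ℕ → k) :=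
  (FR k ℕ).comap (LinearMap.pi fun M => ∑ n ∈ Finset.range M, LinearMap.proj n)

lemma mem_NF {u : ℕ → k} : u ∈ NF k ↔ (fun M => ∑ n ∈ Finset.range M, u n) ∈ FR k ℕ := by
  rw [NF, Submodule.mem_comap]
  refine iff_of_eq (congrArg (· ∈ FR k ℕ) (funext fun M => ?_))
  simp

lemma nf_diff {u : ℕ → k} (h : u ∈ FR k ℕ) (w : ℕ) : (fun n => u (n + w) - u n) ∈ NF k := by
  induction w with
  | zero =>
    simp only [add_zero, sub_self]
    exact (NF k).zero_mem
  | succ w ih =>
    have h1 : (fun n => u (n + 1 + w) - u (n + w)) ∈ NF k := mem_NF.2 (by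
      simp only [fun M => Finset.sum_range_sub (fun n => u (n + w)) M]
      exact sub_mem (FR_comp (· + w) h) (FR_const _))
    refine (congrArg (· ∈ NF k) (funext fun n => ?_)).mp (add_mem h1 ih)
    rw [Pi.add_apply, add_right_comm n 1, ← add_assoc]
    ring

variable [IsDomain k] [CharZero k]

lemma const_notMem {m : k} (hm : m ≠ 0) : (fun _ => m) ∉ NF k := fun h =>
  Set.infinite_range_of_injective (f := fun M : ℕ => ∑ _n ∈ Finset.range M, m)
    (fun a b e => by simpa [hm] using e) (mem_NF.1 h)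

theorem coreC (L : Len G) (p : ℕ → G → G) (C : ℕ) (h0 : ∀ g, p 0 g = 1)
    (h1 : ∀ t g, L.len ((p t g)⁻¹ * p (t + 1) g) ≤ C)
    (h2 : ∀ R, ∃ R', ∀ t g h, L.len (g⁻¹ * h) ≤ R → L.len ((p t g)⁻¹ * p t h) ≤ R')
    (h3 : ∀ g t, C * (L.len g + 1) ≤ t → p t g = g) (N : ℕ) (x : G) {S : Type} (m : k)
    (hm : m ≠ 0) (Z : ℕ → ℕ → B k G →ₗ[k] B k S)
    (z0 : ∀ n, Z 0 n (single [] 1) = single [] m)
    (z1 : ∀ j n i y, Z j n (act k G G (x ^ i) y) = Z j (n + i) y)
    (z3 : ∀ R, ∃ F : ℕ, ∀ V : Finset G, ∃ U : ℕ → Set S,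
      (∀ z, {n | z ∈ U n}.encard ≤ (F * V.card : ℕ)) ∧
      ∀ j n, ∀ y ∈ WS k L j R V, Z j n y ∈ Sp k (U n))
    (z4 : ∀ j n, ∀ y ∈ gr k G (j + 1), bd (Z (j + 1) n y) = Z j n (bd y))
    (z5 : ∀ j, ∀ y ∈ gr k G j, (fun n => Z j n y) ∈ BVa k (Ctl.top ℕ S))
    (z6 : ∀ n y, Z (N + 2) n y = 0) :
    ∃ K : ℕ, ∀ W D : ℕ, 1 ≤ D → (∀ j ≤ N, L.len (x ^ W ^ j) ≤ D) → W ≤ K * D ^ (N + 1) := by
  classical
  obtain ⟨R, K, hc⟩ := exists_c (k := k) (ι := Fin (N + 1)) L p C h0 h1 h2 h3 (N + 1)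
  obtain ⟨F, hF⟩ := z3 R
  refine ⟨(N + 1) * F * K, fun W D hD hl => ?_⟩
  by_contra hW
  obtain ⟨c, V, v1, -, c0, c1, c2⟩ := hc (fun i => x ^ W ^ (i : ℕ)) D hD
    (fun i j => (Commute.pow_pow_self x _ _).eq) fun i => hl i (Nat.le_of_lt_succ i.2)
  obtain ⟨U, u1, z3⟩ := hF V
  have hT : ∀ z, ∃ T : Finset ℕ, T.card ≤ F * V.card ∧ ∀ n, z ∈ U n → n ∈ T := fun z => by
    have := Set.finite_of_encard_le_coe (u1 z)
    refine ⟨this.toFinset, ?_, fun n hn => this.mem_toFinset.2 hn⟩
    have e := u1 z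
    rw [this.encard_eq_coe_toFinset_card] at e
    exact_mod_cast e
  choose T t1 t2 using hT
  have hs : ∀ z, ∃ s : ℤ, ∀ (n : ℕ) (j : Fin (N + 1)), z ∈ U (n + W ^ (j : ℕ)) →
      (n + s) / (W : ℤ) ^ (j : ℕ) % W ≠ W - 1 := fun z => by
    obtain ⟨s, hs⟩ := dig_shift W (Finset.univ.biUnion fun j : Fin (N + 1) =>
      (T z).image fun n : ℕ => (n : ℤ) - W ^ (j : ℕ)) (by
        refine lt_of_le_of_lt (Finset.card_biUnion_le_card_mul _ _ (F * V.card)
          fun _ _ => Finset.card_image_le.trans (t1 z)) (lt_of_le_of_lt ?_ (not_le.1 hW))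
        rw [Finset.card_univ, Fintype.card_fin]
        calc (N + 1) * (F * V.card) ≤ (N + 1) * (F * (K * D ^ (N + 1))) := by gcongr
          _ = _ := by ring) (N + 1)
    exact ⟨s, fun n j e => hs n (Finset.mem_biUnion.2 ⟨j, Finset.mem_univ _,
      Finset.mem_image.2 ⟨_, t2 _ _ e, by simp⟩⟩) j j.2⟩
  choose s hs using hs
  have hW0 : (0 : ℤ) < W := by omega
  let a : ℕ → Fin (N + 1) → S → k := fun n i z =>
    -(((n + s z) / (W : ℤ) ^ (i : ℕ) % W : ℤ) : k)
  have a0 : ∀ i, (fun z : ℕ × S => a z.1 i z.2) ∈ FR k (ℕ × S) := fun i =>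
    ((Set.finite_Ico (0 : ℤ) W).image fun z : ℤ => -(z : k)).subset (by
      rintro _ ⟨z, rfl⟩
      exact ⟨_, ⟨Int.emod_nonneg _ hW0.ne', Int.emod_lt_of_pos _ hW0⟩, rfl⟩)
  have ha : ∀ n (i j : Fin (N + 1)), ∀ z ∈ U (n + W ^ (j : ℕ)),
      a n i z = a (n + W ^ (j : ℕ)) i z + if i = j then 1 else 0 := by
    intro n i j z hz
    have e := dig_add W _ hW0 i j (hs z n j hz)
    simp only [a, Nat.cast_add, Nat.cast_pow, Fin.ext_iff]
    rw [add_comm (n : ℤ) ((W : ℤ) ^ (j : ℕ)), add_assoc, e]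
    simp
  have f1 : ∀ J j, ∀ y ∈ gr k G j, (fun n => Ph (a n) J (Z j n y)) ∈ FR k ℕ := fun J j y hy => by
    have := BVa_map id (fun n => Ph (a n) J) (FR k ℕ) (fun _ _ h => BV_Ph a a0 J h) (z5 j y hy)
    exact this
  have f2 : ∀ J i j, ∀ y ∈ gr k G j, (fun n => Ph (a n) J (Mh (a n i) (Z j n y))) ∈ FR k ℕ :=
    fun J i j y hy => by
      have := BVa_map id (fun n => Ph (a n) J ∘ₗ Mh (a n i)) (FR k ℕ)
        (fun _ _ h => BV_Ph a a0 J (BV_Mh (fun n => a n i) (a0 i) h)) (z5 j y hy)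
      exact this
  have key : ∀ J : List (Fin (N + 1)), J.length ≤ N + 1 → J.Nodup →
      (fun n => Ph (a n) J (Z (J.length + 1) n (c J)) - m) ∈ NF k := by
    intro J hJ hn
    induction J with
    | nil =>
      refine (congrArg (· ∈ NF k) (funext fun n => ?_)).mp (NF k).zero_mem
      rw [Ph_nil, z4 _ _ _ (WS_gr L (c1 [] hJ)), c0, List.length_nil, z0]
      simp
    | cons i J ih =>
      rw [List.length_cons] at hJ
      rw [List.nodup_cons] at hn
      let Ψ : B k G →ₗ[k] ℕ → k :=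
        LinearMap.pi fun n => Ph (a n) J ∘ₗ Mh (a n i) ∘ₗ Z (J.length + 1) n
      have e0 : ∀ y n, Ψ y n = Ph (a n) J (Mh (a n i) (Z (J.length + 1) n y)) := fun _ _ => rfl
      have e1 : ∀ j : Fin (N + 1), ∀ y ∈ WS k L (J.length + 1) R V, ∀ n,
          Ψ (act k G G (x ^ W ^ (j : ℕ)) y - y) n = Ψ y (n + W ^ (j : ℕ)) - Ψ y n +
            (if i = j then 1 else 0) * Ph (a (n + W ^ (j : ℕ))) J
              (Z (J.length + 1) (n + W ^ (j : ℕ)) y) := fun j y hy n => by
        have b1 := z3 _ (n + W ^ (j : ℕ)) y hy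
        rw [map_sub, Pi.sub_apply, e0, e0 y (n + _), z1,
          Ph_shift _ _ (fun i' => ⟨_, ha n i' j⟩) J (Sp_Mh _ b1), Mh_shift _ _ _ (ha n i j) b1,
          map_add, map_smul, map_sub, Ph_single]
        simp only [smul_eq_mul]
        ring
      have e2 : ∀ y ∈ WS k L (J.length + 1) R V, Ψ y ∈ FR k ℕ := fun y hy =>
        f2 J i _ y (WS_gr L hy)
      have e3 : Ψ (Dk (fun i : Fin (N + 1) => x ^ W ^ (i : ℕ)) J fun M => c (i :: M)) ∈ NF k :=
        Dk_mem _ ((NF k).comap Ψ) J _ fun j hj M hM => by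
          have b1 := c1 (i :: M) (by simp only [List.length_cons]; omega)
          rw [List.length_cons, hM] at b1
          have b2 := nf_diff (e2 _ b1) (W ^ (j : ℕ))
          rw [Submodule.mem_comap]
          refine (congrArg (· ∈ NF k) (funext fun n => ?_)).mp b2
          rw [e1 j _ b1, if_neg fun e : i = j => hn.1 (e ▸ hj)]
          ring
      have b1 := c1 J (by omega)
      have e4 := add_mem (add_mem (nf_diff (e2 _ b1) (W ^ (i : ℕ)))
        (nf_diff (f1 J _ _ (WS_gr L b1)) (W ^ (i : ℕ)))) (ih (by omega) hn.2)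
      refine (congrArg (· ∈ NF k) (funext fun n => ?_)).mp (sub_mem e4 e3)
      have e5 := e1 i _ b1 n
      rw [Ph_cons, List.length_cons, z4 (J.length + 1) _ _ (WS_gr L (c1 (i :: J) hJ)),
        c2 _ (List.cons_ne_nil _ _) hJ, ← e0, Dk, map_sub Ψ, Pi.sub_apply (Ψ _), e5]
      simp only [Pi.add_apply, Pi.sub_apply, if_true]
      ring
  have hJ : (List.finRange (N + 1)).length = N + 1 := List.length_finRange
  have e1 := key _ hJ.le (List.nodup_finRange _)
  simp only [hJ, z6, map_zero, zero_sub] at e1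
  exact const_notMem (neg_ne_zero.2 hm) e1

omit [IsDomain k] [CharZero k] in
lemma BVa_supp {α S : Type} {C : Ctl α S} {y : α → B k S} (hy : y ∈ BVa k C) :
    ∃ V, C.p V ∧ ∀ a, y a ∈ Sp k (V a) := by
  induction hy using Submodule.iSup_induction' with
  | mem n y h => exact BV_supp h
  | zero => exact ⟨_, C.empty, fun _ => zero_mem _⟩
  | add x y _ _ a b =>
    obtain ⟨V, a1, a2⟩ := a
    obtain ⟨V', b1, b2⟩ := b
    exact ⟨_, C.union a1 b1, fun a => add_mem (Sp_mono Set.subset_union_left (a2 a))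
      (Sp_mono Set.subset_union_right (b2 a))⟩

/-- The system without constraints. -/
def CS.top (G : Type) [Group G] : CS G Unit :=
  ⟨fun _ _ => True, fun _ _ => trivial, fun _ _ _ _ => trivial⟩

theorem key_null (L : Len G) (p : ℕ → G → G) (C : ℕ) (h0 : ∀ g, p 0 g = 1)
    (h1 : ∀ t g, L.len ((p t g)⁻¹ * p (t + 1) g) ≤ C)
    (h2 : ∀ R, ∃ R', ∀ t g h, L.len (g⁻¹ * h) ≤ R → L.len ((p t g)⁻¹ * p t h) ≤ R')
    (h3 : ∀ g t, C * (L.len g + 1) ≤ t → p t g = g) (x : G) {S : Type} (v : G → S)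
    (hv : (Cx x S).p fun g => {v g}) (hN : Null (UD (CB k x v hv) (CS.top G))) :
    ∃ N K : ℕ, ∀ W D : ℕ, 1 ≤ D → (∀ j ≤ N, L.len (x ^ W ^ j) ≤ D) → W ≤ K * D ^ (N + 1) := by
  classical
  have b0 : ∀ n, ∀ y ∈ gr k G n, (fun h => lmap (fun g => v (h * g)) y) ∈ BV k (Cx x S) n :=
    fun n y hy => BV_shape (fun _ => y) ((Set.finite_singleton y).subset (by rintro _ ⟨_, rfl⟩; rfl))
      (fun _ => hy) _ fun s _ _ _ _ => Cx_tr s _ hv
  let f : B k G →ₗ[k] US (CB k x v hv) (CS.top G) := LinearMap.codRestrict _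
    (LinearMap.pi fun h => lsingle () ∘ₗ lmap fun g => v (h * g)) fun y => by
      induction y using Finsupp.induction_linear with
      | zero => simp
      | add x y a b => rw [map_add]; exact add_mem a b
      | single l r =>
        exact US_gen (A := CS.top G) (H := Set.univ) (ι := fun _ => ()) trivial
          (BVa_of (b0 _ _ (single_mem_gr rfl r))) fun _ h => absurd trivial h
  have hf : ∀ y h, (f y).1 h = single () (lmap (fun g => v (h * g)) y) := fun _ _ => rfl
  obtain ⟨m, hm, a, a1, a2⟩ := hN 1 one_ne_zero f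
    (fun γ y => Subtype.ext (funext fun h => by
      rw [UD_ρ, hf, hf, act_apply]
      simp only [lmap, lmapDomain_apply, ← mapDomain_comp, List.map_map, Function.comp_def,
        smul_eq_mul, mul_assoc]))
    (Eventually.of_forall fun n y _ => Subtype.ext (funext fun h => by
      rw [one_smul, UD_d, hf, hf, ← bd_lmap]
      rw [mapRange.linearMap_apply, mapRange_single]
      rfl))
  obtain ⟨N, a2⟩ := eventually_atTop.1 a2
  let A : G → B k G →ₗ[k] B k S := fun h =>
    lapply () ∘ₗ LinearMap.proj h ∘ₗ (US (CB k x v hv) (CS.top G)).subtype ∘ₗ a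
  have A1 : ∀ h γ y, A h (act k G G γ y) = A (h * γ) y := fun h γ y =>
    congrArg (fun F : US (CB k x v hv) (CS.top G) => F.1 h ()) (a1 γ y)
  have A2 : ∀ h, ∀ y ∈ gr k G (N + 2), m • lmap (fun g => v (h * g)) y = bd (A h y) + A h (bd y) :=
    fun h y hy => by
      have := congrArg (fun F : US (CB k x v hv) (CS.top G) => F.1 h ()) (a2 (N + 2) (by omega) y hy)
      simp only [Submodule.coe_smul, Pi.smul_apply, hf, smul_single, single_eq_same,
        Submodule.coe_add, Pi.add_apply, Finsupp.add_apply, one_smul] at this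
      exact this
  have A3 : ∀ y, (fun h => A h y) ∈ BVa k (Cx x S) := fun y => by
    have := US_map id (fun _ => lapply ()) (BVa k (Cx x S))
      (fun H ι b _ e _ => by simp only [lapply_apply, single_eq_same, id]; exact e) (a y).2
    exact this
  let Y : ℕ → G → B k G →ₗ[k] B k S := fun j h =>
    if j ≤ N then m • lmap fun g => v (h * g)
    else if j = N + 1 then m • lmap (fun g => v (h * g)) - bd ∘ₗ A h else 0
  have Y1 : ∀ j h γ y, Y j h (act k G G γ y) = Y j (h * γ) y := fun j h γ y => by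
    have : lmap (fun g => v (h * g)) (act k G G γ y) = lmap (fun g => v (h * γ * g)) y := by
      simp only [act_apply, lmap, lmapDomain_apply, ← mapDomain_comp, List.map_map,
        Function.comp_def, smul_eq_mul, mul_assoc]
    simp only [Y]
    split_ifs <;> simp [this, A1]
  have Y2 : ∀ j, ∀ y ∈ gr k G j, (fun h => Y j h y) ∈ BVa k (Cx x S) := fun j y hy => by
    have e := Submodule.smul_mem _ m (BVa_of (b0 j y hy))
    simp only [Y]
    split_ifs
    · exact e
    · exact sub_mem e (BVa_bd (A3 y))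
    · exact zero_mem _
  refine ⟨N, coreC L p C h0 h1 h2 h3 N x m hm (fun j n => Y j (x ^ n)) (fun n => by simp [Y])
    (fun j n i y => by rw [Y1, pow_add]) (fun R => ?_) (fun j n y hy => ?_)
    (fun j y hy => BVa_comp (x ^ ·) (fun _ _ => trivial) (Y2 j y hy)) fun n y => by simp [Y]⟩
  · have hfin : {l : List G | l.length ≤ N + 1 ∧ ∀ g ∈ l, L.len g ≤ R}.Finite :=
      ((Set.finite_Iic (N + 1)).biUnion fun n _ => finite_lists (L.fin R) n).subset
        fun l hl => Set.mem_iUnion₂.2 ⟨_, hl.1, rfl, hl.2⟩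
    choose U u1 u2 using fun l : List G => BVa_supp (Y2 _ _ (single_mem_gr (l := l) rfl 1))
    obtain ⟨F, hF⟩ := (Cx_iff x _).1 ((Cx x S).biUnion hfin U fun l _ => u1 l)
    refine ⟨F, fun V => ⟨fun n => ⋃ g ∈ V, ⋃ l ∈ {l : List G | l.length ≤ N + 1 ∧
      ∀ g ∈ l, L.len g ≤ R}, U l (x ^ n * g), fun z => ?_,
      fun j n y hy => sup_map _ _ (fun l hl => ?_) hy⟩⟩
    · induction V using Finset.induction_on with
      | empty => simp
      | insert g V hg ih =>
        simp only [Finset.set_biUnion_insert, Set.mem_union, Set.ofPred_or,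
          Finset.card_insert_of_notMem hg]
        refine (Set.encard_union_le _ _).trans ((add_le_add (hF g z) ih).trans (le_of_eq ?_))
        push_cast
        ring
    · obtain ⟨rfl, l1, l2⟩ := hl
      cases l with
      | nil =>
        simp only [Y, List.length_nil, if_pos (Nat.zero_le N), LinearMap.smul_apply, lmap_single]
        exact Submodule.smul_mem _ _ (single_mem_supported k _ (by simp))
      | cons g l =>
        by_cases e : (g :: l).length ≤ N + 1
        · have e1 : (single (g :: l) 1 : B k G) =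
              act k G G g (single ((g :: l).map (g⁻¹ * ·)) 1) := by
            simp [Function.comp_def]
          have e2 := u2 ((g :: l).map (g⁻¹ * ·)) (x ^ n * g)
          rw [List.length_map] at e2
          rw [e1, Y1]
          refine Sp_mono (fun z hz => Set.mem_iUnion₂.2 ⟨g, l2 g List.mem_cons_self,
            Set.mem_iUnion₂.2 ⟨_, ⟨by rwa [List.length_map], fun a ha => ?_⟩, hz⟩⟩) e2
          obtain ⟨b, hb, rfl⟩ := List.mem_map.1 ha
          exact l1 g List.mem_cons_self b hb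
        · simp only [Y]
          rw [if_neg (by omega), if_neg (by omega)]
          exact zero_mem _
  · simp only [Y]
    split_ifs with e1 e2 e3 e4 e5 e6 e7 e8
    all_goals first | omega | skip
    · simp [bd_lmap]
    · simp [bd_lmap, bd_bd]
    · have := congrArg bd (A2 (x ^ n) y (by rwa [e8] at hy))
      rw [map_add, bd_bd, zero_add, map_smul, bd_lmap] at this
      simp [this]
    · simp

end Pool.Agent.Lib.MP_2fb4be_al.Sol.K
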