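import Pool.Agent.Lib.MP_2fb4be_al.DC.Lab

/-!
A chain map from the bar complex to the telescope over all scales.
-/

set_option autoImplicit false
set_option linter.unusedSectionVars false

noncomputable section

namespace Pool.Agent.Lib.MP_2fb4be_al.Sol.K

open Finsupp hiding cons
open Filter Pool.Agent.Lib.MP_f0c981_al

variable {k : Type} [CommRing k] {K : Type}

/-- Raising the level. -/
def rho (t : ℕ) (z : ℕ × K) : ℕ × K := (max z.1 t, z.2)

/-- Filling a cycle: raise it to level `J` and cone it off there. -/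
def fz (J : ℕ) (a : K) : B k (ℕ × K) →ₗ[k] B k (ℕ × K) :=
  cons (J, a) ∘ₗ lmap (rho J) - ∑ t ∈ Finset.range J, pr (rho t) (rho (t + 1))

lemma bd_fz (J : ℕ) (a : K) (y : B k (ℕ × K)) (hc : bd y = 0) : bd (fz J a y) = y := by
  have hsum : ∀ T, bd (∑ t ∈ Finset.range T, pr (rho t) (rho (t + 1)) y) =
      lmap (rho T) y - y := by
    intro T
    induction T with
    | zero =>
      have : (rho 0 : ℕ × K → ℕ × K) = id := funext fun z => by simp [rho]
      simp [this, lmap]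
    | succ T ih =>
      have := bd_pr (rho T) (rho (T + 1)) y
      rw [hc, map_zero, add_zero] at this
      rw [Finset.sum_range_succ, map_add, ih, this]
      abel
  simp only [fz, LinearMap.sub_apply, LinearMap.comp_apply, LinearMap.sum_apply, map_sub, hsum,
    bd_cons, bd_lmap, hc, map_zero]
  abel

variable [Group K]

/-- The chain map to the telescope. -/
def tz (lev : List K → ℕ) : ℕ → B k K →ₗ[k] B k (ℕ × K)
  | 0 => lmap fun g => (0, g)
  | n + 1 => linearCombination k fun l => fz (lev l) (l.headD 1) (tz lev n (bd (single l 1)))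

lemma tz_single (lev : List K → ℕ) (n : ℕ) (l : List K) : tz lev (n + 1) (single l (1 : k)) =
    fz (lev l) (l.headD 1) (tz lev n (bd (single l 1))) := by simp [tz]

lemma bd_tz (lev : List K → ℕ) (n : ℕ) :
    ∀ y ∈ gr k K (n + 1), bd (tz lev (n + 1) y) = tz lev n (bd y) := by
  induction n with
  | zero =>
    exact fun y hy => gr_ext (bd ∘ₗ tz lev 1) (tz lev 0 ∘ₗ bd) (fun l _ => by
      rw [LinearMap.comp_apply, tz_single, bd_fz _ _ _ (by rw [tz, bd_lmap, bd_bd, map_zero])]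
      rfl) hy
  | succ n ih =>
    exact fun y hy => gr_ext (bd ∘ₗ tz lev (n + 2)) (tz lev (n + 1) ∘ₗ bd) (fun l hl => by
      rw [LinearMap.comp_apply, tz_single, bd_fz _ _ _
        (by rw [ih _ (bd_gr (single_mem_gr hl 1)), bd_bd, map_zero])]
      rfl) hy

lemma tz_gr (lev : List K → ℕ) (n : ℕ) : ∀ y ∈ gr k K n, tz lev n y ∈ gr k (ℕ × K) n := by
  induction n with
  | zero => exact fun y hy => lmap_gr _ hy
  | succ n ih =>
    refine fun y hy => gr_map _ _ (fun l hl => ?_) hy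
    have := ih _ (bd_gr (single_mem_gr hl 1))
    rw [tz_single, fz, LinearMap.sub_apply, LinearMap.sum_apply]
    exact sub_mem (cons_gr _ (lmap_gr _ this)) (sum_mem fun t _ => pr_gr _ _ this)

lemma tz_act (lev : List K → ℕ) (γ : K) (h : ∀ l, lev (l.map (γ • ·)) = lev l) (n : ℕ) :
    ∀ y ∈ gr k K n, tz lev n (act k K K γ y) = lmap (fun z => (z.1, γ * z.2)) (tz lev n y) := by
  induction n with
  | zero =>
    exact fun y hy => gr_ext (tz lev 0 ∘ₗ act k K K γ) (lmap _ ∘ₗ tz lev 0)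
      (fun l _ => by simp [tz, Function.comp_def]) hy
  | succ n ih =>
    refine fun y hy => gr_ext (tz lev (n + 1) ∘ₗ act k K K γ) (lmap _ ∘ₗ tz lev (n + 1))
      (fun l hl => ?_) hy
    have e := ih _ (bd_gr (single_mem_gr hl 1))
    obtain ⟨a, l, rfl⟩ := List.exists_cons_of_length_eq_add_one hl
    rw [LinearMap.comp_apply, LinearMap.comp_apply, act_single, tz_single, tz_single, h,
      ← act_single, bd_act, e]
    generalize tz lev n (bd (single (a :: l) (1 : k))) = y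
    simp only [fz, LinearMap.sub_apply, LinearMap.comp_apply, LinearMap.sum_apply, map_sub, map_sum,
      lmap_cons, List.map_cons, List.headD_cons, smul_eq_mul]
    congr 1
    · simp only [lmap, lmapDomain_apply, ← mapDomain_comp, List.map_map, Function.comp_def, rho]
    · exact Finset.sum_congr rfl fun t _ => pr_nat (rho t) (rho (t + 1)) (rho t) (rho (t + 1))
        (fun z => (z.1, γ * z.2)) (fun z => (z.1, γ * z.2)) (fun _ => rfl) (fun _ => rfl) y

variable (T : ℕ → Set K)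

/-- Chains in the telescope with bounded level and given carrier. -/
def TT (k : Type) [CommRing k] (T : ℕ → Set K) (n : ℕ) (V : Set K) (J : ℕ) :
    Submodule k (B k (ℕ × K)) :=
  supported k k {l | l.length = n ∧ (∀ z ∈ l, z.2 ∈ V ∧ z.1 ≤ J) ∧
    ∃ j g, ∀ z ∈ l, (z.1 = j ∨ z.1 = j + 1) ∧ g⁻¹ * z.2 ∈ T j}

lemma fz_TT (hT : Monotone T) {n J : ℕ} {V : Set K} {a g : K} (ha : a ∈ V)
    (hg : ∀ v ∈ V, g⁻¹ * v ∈ T J) {y : B k (ℕ × K)} (hy : y ∈ TT k T n V J) :
    fz J a y ∈ TT k T (n + 1) V J := by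
  refine sup_map _ _ (fun l hl => ?_) hy
  obtain ⟨l1, l2, j, g', l3⟩ := hl
  rw [fz, LinearMap.sub_apply, LinearMap.sum_apply]
  refine sub_mem ?_ (sum_mem fun t ht => ?_)
  · rw [LinearMap.comp_apply, lmap_single, cons_single]
    have key : ∀ z ∈ (J, a) :: l.map (rho J), z.2 ∈ V ∧ z.1 = J := fun z hz => by
      rcases List.mem_cons.1 hz with rfl | hz
      · exact ⟨ha, rfl⟩
      · obtain ⟨w, hw, rfl⟩ := List.mem_map.1 hz
        exact ⟨(l2 w hw).1, max_eq_right (l2 w hw).2⟩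
    exact single_mem_supported k _ ⟨by simp [l1], fun z hz => ⟨(key z hz).1, (key z hz).2.le⟩,
      J, g, fun z hz => ⟨Or.inl (key z hz).2, hg _ (key z hz).1⟩⟩
  · have ht' := Finset.mem_range.1 ht
    rw [pr_single, one_smul]
    refine supported_mono ?_ (prL_sup (rho t) (rho (t + 1))
      {z | ∃ x ∈ l, z = rho t x ∨ z = rho (t + 1) x} l (fun x hx => ⟨x, hx, Or.inl rfl⟩)
      fun x hx => ⟨x, hx, Or.inr rfl⟩)
    rintro l' ⟨e1, e2⟩
    refine ⟨by rw [e1, l1], fun z hz => ?_, max j t, g', fun z hz => ?_⟩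
    · obtain ⟨w, hw, rfl | rfl⟩ := e2 z hz
      · exact ⟨(l2 w hw).1, max_le (l2 w hw).2 ht'.le⟩
      · exact ⟨(l2 w hw).1, max_le (l2 w hw).2 ht'⟩
    · obtain ⟨w, hw, e⟩ := e2 z hz
      have a1 := (l3 w hw).1
      have a2 := hT (le_max_left j t) (l3 w hw).2
      rcases e with rfl | rfl <;> exact ⟨by simp only [rho]; omega, a2⟩

/-- The scale of a list. -/
def lev (l : List K) : ℕ := sInf {j | ∃ g, ∀ a ∈ l, g⁻¹ * a ∈ T j}

lemma lev_act (γ : K) (l : List K) : lev T (l.map (γ • ·)) = lev T l := by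
  refine congrArg sInf (Set.ext fun j => ⟨fun ⟨g, h⟩ => ⟨γ⁻¹ * g, fun a ha => ?_⟩,
    fun ⟨g, h⟩ => ⟨γ * g, fun a ha => ?_⟩⟩)
  · simpa [mul_assoc] using h _ (List.mem_map_of_mem ha)
  · obtain ⟨b, hb, rfl⟩ := List.mem_map.1 ha
    simpa [mul_assoc] using h b hb

lemma tz_TT (hT : Monotone T) (n : ℕ) (V : Set K) (J : ℕ) (g : K) (hg : ∀ v ∈ V, g⁻¹ * v ∈ T J) :
    ∀ y ∈ GS k n V, tz (lev T) n y ∈ TT k T n V J := by
  induction n generalizing V J g with
  | zero =>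
    refine fun y hy => sup_map _ _ (fun l hl => ?_) hy
    rw [List.length_eq_zero_iff.1 hl.1, tz, lmap_single]
    exact single_mem_supported k _ ⟨rfl, by simp, 0, 1, by simp⟩
  | succ n ih =>
    refine fun y hy => sup_map _ _ (fun l hl => ?_) hy
    have e : J ∈ {j | ∃ g, ∀ a ∈ l, g⁻¹ * a ∈ T j} := ⟨g, fun a ha => hg a (hl.2 a ha)⟩
    obtain ⟨g', hg'⟩ := Nat.sInf_mem ⟨J, e⟩
    have := fz_TT T hT (a := l.headD 1) (V := {x | x ∈ l}) (by
      obtain ⟨a, l, rfl⟩ := List.exists_cons_of_length_eq_add_one hl.1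
      exact List.mem_cons_self) hg' (ih _ _ g' hg' _ (GS_bd (k := k) hl.1))
    rw [tz_single]
    refine supported_mono ?_ this
    rintro l' ⟨a1, a2, a3⟩
    exact ⟨a1, fun z hz => ⟨hl.2 _ (a2 z hz).1, (a2 z hz).2.trans (Nat.sInf_le e)⟩, a3⟩

lemma fI_TT {S : Type} [LinearOrder S] (μ : List S → S) (m1 : ∀ l, l ≠ [] → ∃ a ∈ l, μ l = id a)
    (m2 : ∀ l, ∀ a ∈ l, μ l ≤ id a) (hT : Monotone T) (π : ℕ × K → S) (d : ℕ) {V : Set K}
    (hd : ∀ j g, ((fun a => π (j, a)) '' {a ∈ V | g⁻¹ * a ∈ T j}).encard ≤ d) {J : ℕ}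
    {y : B k (ℕ × K)} (hy : y ∈ TT k T (2 * d + 1) V J) : fI μ (2 * d + 1) (lmap π y) = 0 := by
  refine sup_map (fI μ (2 * d + 1) ∘ₗ lmap π) ⊥ (fun l hl => ?_) hy
  obtain ⟨l1, l2, j, g, l3⟩ := hl
  have := fI_inc (k := k) id μ m1 m2 (2 * d + 1) {x | x ∈ l.map π} (single (l.map π) 1)
    (single_mem_supported k 1 ⟨by simpa, fun _ h => h⟩)
  rw [LinearMap.comp_apply, lmap_single]
  refine Finsupp.support_eq_empty.1 (Finset.eq_empty_of_forall_notMem fun w hw => ?_)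
  obtain ⟨w1, w2, w3⟩ := this hw
  have a1 : {x | x ∈ w} ⊆ (fun a => π (j, a)) '' {a ∈ V | g⁻¹ * a ∈ T j} ∪
      (fun a => π (j + 1, a)) '' {a ∈ V | g⁻¹ * a ∈ T (j + 1)} := by
    intro x hx
    obtain ⟨_, hb, rfl⟩ := w3 x hx
    obtain ⟨⟨i, a⟩, ha, rfl⟩ := List.mem_map.1 hb
    obtain ⟨rfl | rfl, e⟩ := l3 _ ha
    · exact Or.inl ⟨a, ⟨(l2 _ ha).1, e⟩, rfl⟩
    · exact Or.inr ⟨a, ⟨(l2 _ ha).1, hT (Nat.le_succ j) e⟩, rfl⟩
  have a2 := ((Set.encard_le_encard a1).trans (Set.encard_union_le _ _)).trans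
    (add_le_add (hd j g) (hd (j + 1) g))
  classical
  rw [← List.coe_toFinset, Set.encard_coe_eq_coe_finsetCard,
    List.toFinset_card_of_nodup (w2.imp ne_of_lt), w1] at a2
  have a3 : 2 * d + 1 ≤ d + d := by exact_mod_cast a2
  omega

end Pool.Agent.Lib.MP_2fb4be_al.Sol.K
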