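import Pool.Agent.Lib.MP_2fb4be_al.DC.Steps
import Pool.Agent.Lib.MP_2fb4be_al.DC.Tel

/-!
The vanishing property is inherited under decomposition at all scales.
-/

set_option autoImplicit false
set_option linter.unusedSectionVars false

noncomputable section

namespace Pool.Agent.Lib.MP_2fb4be_al.Sol.K

open Finsupp hiding cons
open Filter Pool.Agent.Lib.MP_f0c981_al

variable {k : Type} [CommRing k] {G Γ : Type} [Group G] [Group Γ]
variable {D : Type} [AddCommGroup D] [Module k D]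

lemma BV_shape' {α S S' : Type} {C : Ctl α S} {m : ℕ} (w : α → B k S')
    (hw : (Set.range w).Finite) (hm : ∀ a, w a ∈ gr k S' m) (V : α → S' → S) (v : α → S)
    (hv : C.p fun a => {v a}) (U : α → Set S') (hU : ∀ a, w a ∈ Sp k (U a))
    (h : ∀ s, C.p fun a => {z | s ∈ U a ∧ z = V a s}) :
    (fun a => lmap (V a) (w a)) ∈ BV k C m := by
  classical
  have := BV_shape (C := C) w hw hm (fun a s => if s ∈ U a then V a s else v a) fun s _ _ _ _ =>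
    C.mono (fun a z hz => by
      by_cases e : s ∈ U a
      · exact Or.inl ⟨e, by simpa [e] using hz⟩
      · exact Or.inr (by simpa [e] using hz)) (C.union (h s) hv)
  refine (congrArg (· ∈ BV k C m) (funext fun a => ?_)).mp this
  refine mapDomain_congr fun l hl => List.map_congr_left fun s hs => if_pos (hU a hl s hs)

lemma exists_mu (S : Type) [Inhabited S] [LinearOrder S] : ∃ μ : List S → S,
    (∀ l, l ≠ [] → ∃ a ∈ l, μ l = id a) ∧ ∀ l, ∀ a ∈ l, μ l ≤ id a := by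
  have : ∀ l : List S, ∃ z, (l ≠ [] → ∃ a ∈ l, z = id a) ∧ ∀ a ∈ l, z ≤ id a := fun l => by
    by_cases e : l = []
    · exact ⟨default, fun h => absurd e h, by simp [e]⟩
    · obtain ⟨a, ha, h⟩ := l.toFinset.exists_min_image id
        (by simpa [Finset.nonempty_iff_ne_empty] using e)
      exact ⟨a, fun _ => ⟨a, List.mem_toFinset.1 ha, rfl⟩,
        fun b hb => h b (List.mem_toFinset.2 hb)⟩
  choose μ m1 m2 using this
  exact ⟨μ, m1, m2⟩

/-- Control of vertices that are members of the families at bounded levels. -/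
def Cd (c : G → Γ) (𝒴 : ℕ → Set (Set Γ)) (H : Set G) : Ctl G (ℕ × Set Γ) where
  p V := ∃ (J : ℕ) (R : Set Γ), R.Finite ∧
    ∀ g ∈ H, ∀ w ∈ V g, w.1 ≤ J ∧ w.2 ∈ 𝒴 w.1 ∧ ∃ t ∈ R, c g * t ∈ w.2
  empty := ⟨0, ∅, Set.finite_empty, by simp⟩
  mono := fun h ⟨J, R, a, b⟩ => ⟨J, R, a, fun g hg w hw => b g hg w (h g hw)⟩
  union := fun ⟨J, R, a, b⟩ ⟨J', R', a', b'⟩ => ⟨max J J', R ∪ R', a.union a', fun g hg w hw =>
    hw.elim (fun e => ⟨le_max_of_le_left (b g hg w e).1, (b g hg w e).2.1,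
        (b g hg w e).2.2.imp fun _ h => ⟨Or.inl h.1, h.2⟩⟩)
      fun e => ⟨le_max_of_le_right (b' g hg w e).1, (b' g hg w e).2.1,
        (b' g hg w e).2.2.imp fun _ h => ⟨Or.inr h.1, h.2⟩⟩⟩

variable [IsDomain k] {C : Co k G D} {c : G → Γ}

lemma null_dec (hG : FinType k G) (hc : ∀ s, (Set.range fun g => (c g)⁻¹ * c (g * s)).Finite)
    (T : ℕ → Set Γ) (t1 : ∀ j, (T j).Finite) (t2 : Monotone T)
    (t3 : ∀ j s, ∃ j', ∀ g, ∀ t ∈ T j, (c g)⁻¹ * c (g * s) * t ∈ T j') (d : ℕ)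
    (𝒴 : ℕ → Set (Set Γ)) (h𝒴 : ∀ j, NU C c (𝒴 j)) {I : Type} (m : I → Set Γ) (Q : Set I)
    (R : ℕ → Set Γ) (r1 : ∀ j, (R j).Finite) (π : I → ℕ → Γ → Set Γ)
    (p1 : ∀ i ∈ Q, ∀ j, ∀ g ∈ m i, π i j g ∈ 𝒴 j ∧ ∃ t ∈ R j, g * t ∈ π i j g)
    (p2 : ∀ i ∈ Q, ∀ j g, (π i j '' {a ∈ m i | g⁻¹ * a ∈ T j}).encard ≤ d) (A : CS G I)
    (hA : ∀ H ι, A.adm H ι → ∃ j, ∀ g ∈ H, ι g ∈ Q ∧ ∃ t ∈ T j, c g * t ∈ m (ι g)) :
    Null (UD C A) := by
  classical
  have : ∀ i a, ∃ b, ∀ j, (∃ t ∈ T j, a * t ∈ m i) → b ∈ m i ∧ a⁻¹ * b ∈ T j := fun i a => by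
    by_cases e : ∃ j, ∃ t ∈ T j, a * t ∈ m i
    · obtain ⟨t, h1, h2⟩ := Nat.find_spec e
      exact ⟨a * t, fun j hj => ⟨h2, by simpa using t2 (Nat.find_min' e hj) h1⟩⟩
    · exact ⟨a, fun j hj => absurd ⟨j, hj⟩ e⟩
  choose p hp using this
  have near : ∀ H ι, A.adm H ι → ∀ l : List G, ∃ J, ∀ g ∈ H, ∀ s ∈ l,
      p (ι g) (c (g * s)) ∈ m (ι g) ∧ (c g)⁻¹ * p (ι g) (c (g * s)) ∈ T J := fun H ι a l => by
    obtain ⟨j, hj⟩ := hA H ι a
    induction l with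
    | nil => exact ⟨0, by simp⟩
    | cons s l ih =>
      obtain ⟨J, hJ⟩ := ih
      obtain ⟨j1, h1⟩ := t3 j s⁻¹
      obtain ⟨j2, h2⟩ := t3 j1 s
      refine ⟨max J j2, fun g hg => List.forall_mem_cons.2 ⟨?_, fun s hs =>
        ⟨(hJ g hg s hs).1, t2 (le_max_left _ _) (hJ g hg s hs).2⟩⟩⟩
      obtain ⟨-, t, b1, b2⟩ := hj g hg
      obtain ⟨b3, b4⟩ := hp (ι g) (c (g * s)) j1 ⟨_, h1 (g * s) t b1, by simpa [mul_assoc]⟩
      exact ⟨b3, t2 (le_max_right _ _) (by simpa [mul_assoc] using h2 g _ b4)⟩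
  let _ : LinearOrder (ℕ × Set Γ) := linearOrderOfSTO WellOrderingRel
  obtain ⟨μ, m1, m2⟩ := exists_mu (ℕ × Set Γ)
  let E : ℕ → CS G (I × List (ℕ × Set Γ)) := fun n =>
    { adm := fun H ι => A.adm H (fun g => (ι g).1) ∧ (∀ g ∈ H, (ι g).2.length = n + 1) ∧
        (Cd c 𝒴 H).p fun g => {w | w ∈ (ι g).2}
      mono := fun h ⟨a, b, J, R, r1, r2⟩ => ⟨A.mono h a, fun g e => b g (h e), J, R, r1,
        fun g e => r2 g (h e)⟩
      tr := fun γ H ι ⟨a, b, J, R, r1, r2⟩ => ⟨A.tr γ a, fun g e => b _ e, J, _,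
        (hc γ).image2 (· * ·) r1, fun g e w hw => ⟨(r2 _ e w hw).1, (r2 _ e w hw).2.1, by
          obtain ⟨t, b1, b2⟩ := (r2 _ e w hw).2.2
          exact ⟨_, ⟨_, ⟨g, rfl⟩, t, b1, rfl⟩, by simpa [mul_assoc] using b2⟩⟩⟩ }
  have ls : ∀ n H ι, A.adm H ι → ∀ z ∈ BV k (Cd c 𝒴 H) (n + 1), z ∈ LS k (E n) H ι :=
    fun n H ι a z hz => by
      have := BV_map id (fun _ => (LinearMap.id : B k (ℕ × Set Γ) →ₗ[k] B k (ℕ × Set Γ)))
        (LS k (E n) H ι) (C := Cd c 𝒴 H) (fun l r h1 h2 ⟨J, R, r1, r2⟩ => by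
          simp only [LinearMap.id_apply, id]
          exact LS_gen l h2 ⟨A.mono (fun _ h => h.1) a, fun g _ => h1 g, J, R, r1,
            fun g e => r2 g e.1⟩) hz
      exact this
  let Z : ℕ → I → B k G →ₗ[k] B k (ℕ × Set Γ) := fun n i =>
    fI μ n ∘ₗ lmap (fun z => (z.1, π i z.1 z.2)) ∘ₗ tz (lev T) n ∘ₗ lmap fun g => p i (c g)
  have z1 : ∀ n i, ∀ σ ∈ gr k G (n + 1), bd (Z (n + 1) i σ) = Z n i (bd σ) := fun n i σ hσ => by
    simp only [Z, LinearMap.comp_apply]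
    rw [bd_fI id μ m1 m2 n _ (lmap_gr _ (tz_gr _ _ _ (lmap_gr _ hσ))), bd_lmap,
      bd_tz _ _ _ (lmap_gr _ hσ), bd_lmap]
  refine null_lab A (fun _ => List (ℕ × Set Γ)) E (fun _ => bd) (lapply [] ∘ₗ bd)
    (fun y => by simp [bd_bd]) (fun _ => bd_bd) (fun n => Z (n + 1)) (fun i g => ?_)
    (fun n => z1 (n + 1)) (2 * d) (fun H ι a g hg l hl => ?_) (fun n H ι a l hl => ?_)
    (fun n H ι ⟨a, b, J, R, r1, r2⟩ => ?_) (fun H ι ⟨a, b, _⟩ => ⟨a,
      (Set.finite_singleton 1).subset ?_⟩) fun n => ?_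
  · rw [LinearMap.comp_apply, z1 0 i _ (single_mem_gr (l := [g]) rfl 1)]
    simp [Z, bd_single_cons, fI, tz]
  · obtain ⟨J, hJ⟩ := near H ι a l
    obtain ⟨j, hj⟩ := hA H ι a
    simp only [Z, LinearMap.comp_apply, lmap_single]
    refine fI_TT T μ m1 m2 t2 _ d (V := {z ∈ m (ι g) | (c g)⁻¹ * z ∈ T J}) (fun j g' => ?_)
      (tz_TT T t2 _ _ J (c g) (fun _ h => h.2) _ (single_mem_supported k _ ⟨by simpa, ?_⟩))
    · refine le_trans (Set.encard_le_encard ?_)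
        ((Set.encard_image_le (Prod.mk j) _).trans (p2 _ (hj g hg).1 j g'))
      rintro _ ⟨z, hz, rfl⟩
      exact ⟨_, ⟨z, ⟨hz.1.1, hz.2⟩, rfl⟩, rfl⟩
    · simpa using hJ g hg
  · obtain ⟨J, hJ⟩ := near H ι a l
    obtain ⟨j, hj⟩ := hA H ι a
    let w : G → List Γ := fun g => l.map fun s => (c g)⁻¹ * p (ι g) (c (g * s))
    have w1 : ∀ g, (w g).length = n + 1 := fun g => by simpa [w]
    have w2 : ∀ g ∈ H, ∀ z ∈ w g, c g * z ∈ m (ι g) ∧ z ∈ T J := fun g hg z hz => by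
      obtain ⟨s, hs, rfl⟩ := List.mem_map.1 hz
      simpa using hJ g hg s hs
    refine ⟨_, ls n H ι a _ (BV_fI μ (fun l hl => by obtain ⟨a, h, e⟩ := m1 l hl; exact e ▸ h)
      (BV_shape' (fun g => if g ∈ H then tz (lev T) (n + 1) (single (w g) 1) else 0)
        ((((finite_lists (t1 J) (n + 1)).image
          fun l => tz (lev T) (n + 1) (single l 1)).insert 0).subset ?_) (fun g => ?_)
        (fun g z => (z.1, π (ι g) z.1 (c g * z.2))) (fun g => (0, π (ι g) 0 (p (ι g) (c g))))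
        ⟨0, _, (t1 j).image2 (· * ·) (r1 0), ?_⟩ (fun g => {z | z.2 ∈ w g}) (fun g => ?_)
        fun s => ⟨s.1, _, (r1 s.1).image (s.2 * ·), ?_⟩)), fun g hg => ?_⟩
    · rintro _ ⟨g, rfl⟩
      beta_reduce
      split_ifs with e
      · exact Or.inr ⟨w g, ⟨w1 g, fun z hz => (w2 g e z hz).2⟩, rfl⟩
      · exact Or.inl rfl
    · split_ifs
      · exact tz_gr _ _ _ (single_mem_gr (w1 g) 1)
      · exact zero_mem _
    · rintro g hg _ rfl
      obtain ⟨b1, b2⟩ := hp _ _ j (hj g hg).2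
      obtain ⟨b3, t, b4, b5⟩ := p1 _ (hj g hg).1 0 _ b1
      exact ⟨le_rfl, b3, _, ⟨_, b2, t, b4, rfl⟩, by simpa [mul_assoc] using b5⟩
    · split_ifs with e
      · exact fun l hl z hz => ((tz_TT T t2 _ {z | z ∈ w g} J 1
          (fun z hz => by simpa using (w2 g e z hz).2) _
          (single_mem_supported k _ ⟨w1 g, fun _ h => h⟩) hl).2.1 z hz).1
      · exact zero_mem _
    · rintro g hg _ ⟨hs, rfl⟩
      obtain ⟨b3, t, b4, b5⟩ := p1 _ (hj g hg).1 s.1 _ (w2 g hg _ hs).1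
      exact ⟨le_rfl, b3, _, ⟨t, b4, rfl⟩, by simpa [mul_assoc] using b5⟩
    · have e := tz_act (k := k) (lev T) (c g) (lev_act T _) _ _ (single_mem_gr (w1 g) 1)
      have e' : (w g).map (c g • ·) = (l.map (g • ·)).map fun g' => p (ι g) (c g') := by
        simp [w, Function.comp_def]
      simp only [Z, LinearMap.comp_apply, lmap_single, if_pos hg]
      rw [← e', ← act_single, e]
      simp only [lmap, lmapDomain_apply, ← mapDomain_comp, List.map_map, Function.comp_def]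
  · refine ⟨_, ls n H _ a _ (BV_bd (BV_gen (m := n + 2)
      (fun g => if g ∈ H then (ι g).2 else List.replicate (n + 2) default) (fun g => ?_)
      (FR_const 1) ⟨J, R, r1, fun g hg => ?_⟩)), fun g hg => by rw [if_pos hg]⟩
    · split_ifs with e
      · exact b g e
      · simp
    · simpa only [if_pos hg] using r2 g hg
  · rintro _ ⟨g, hg, rfl⟩
    obtain ⟨a, e⟩ := List.length_eq_one_iff.1 (b g hg)
    simp [e, bd_single_cons]
  · have hd : ∀ l : List (ℕ × Set Γ), l.length = n + 1 → l.headD default ∈ l := fun l hl => by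
      obtain ⟨a, l, rfl⟩ := List.exists_cons_of_length_eq_add_one hl
      exact List.mem_cons_self
    refine null_cover hG (fun z => (z.2.headD default).1)
      (fun H ι ⟨_, b, J, _, _, r2⟩ => (Set.finite_Iic J).subset ?_) fun j =>
        h𝒴 j _ (fun z => (z.2.headD default).2) _ fun H ι ⟨⟨_, b, J, R, r1, r2⟩, e⟩ =>
          ⟨R, r1, fun g hg => ?_⟩
    · rintro _ ⟨g, hg, rfl⟩
      exact (r2 g hg _ (hd _ (b g hg))).1
    · rw [← show _ = j from e g hg]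
      exact (r2 g hg _ (hd _ (b g hg))).2

/-- An exhaustion by finite sets. -/
def tw (A : ℕ → Set Γ) (T : Set Γ) : ℕ → Set Γ
  | 0 => T
  | j + 1 => tw A T j ∪ Set.image2 (· * ·) (A j) (tw A T j)

lemma nu_dec (hG : FinType k G) (L : Len G)
    (hc : ∀ s, (Set.range fun g => (c g)⁻¹ * c (g * s)).Finite) (𝒳 : Set (Set Γ)) (d : ℕ)
    (𝒴 : Finset Γ → Set (Set Γ)) (h𝒴 : ∀ T, NU C c (𝒴 T))
    (h : ∀ T : Finset Γ, ∃ T' : Finset Γ, ∀ X ∈ 𝒳, ∃ π : Γ → Set Γ,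
      (∀ g ∈ X, π g ∈ 𝒴 T ∧ ∃ t ∈ T', g * t ∈ π g) ∧
      ∀ g, (π '' {a ∈ X | g⁻¹ * a ∈ T}).encard ≤ d) : NU C c 𝒳 := by
  classical
  intro I m A hA
  let U : ℕ → Set Γ := fun j => ⋃ s ∈ {s | L.len s ≤ j}, Set.range fun g => (c g)⁻¹ * c (g * s)
  have t1 : ∀ T : Finset Γ, ∀ j, (tw U T j).Finite := fun T j => by
    induction j with
    | zero => exact T.finite_toSet
    | succ j ih => exact ih.union (((L.fin j).biUnion fun s _ => hc s).image2 _ ih)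
  have t2 : ∀ T, Monotone (tw U T) := fun T =>
    monotone_nat_of_le_succ fun j => Set.subset_union_left
  have t3 : ∀ T j s, ∃ j', ∀ g, ∀ t ∈ tw U T j, (c g)⁻¹ * c (g * s) * t ∈ tw U T j' :=
    fun T j s => ⟨max j (L.len s) + 1, fun g t ht => Or.inr ⟨_, Set.mem_iUnion₂.2
      ⟨s, le_max_right j _, g, rfl⟩, t, t2 T (le_max_left _ _) ht, rfl⟩⟩
  have t4 : ∀ T T', T ⊆ T' → ∀ j, tw U T j ⊆ tw U T' j := fun T T' e j => by
    induction j with
    | zero => exact e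
    | succ j ih => exact Set.union_subset_union ih (Set.image2_subset_left ih)
  let E : Finset Γ → CS G I := fun T =>
    { adm := fun H ι => A.adm H ι ∧ ∃ j, ∀ g ∈ H, ∃ t ∈ tw U T j, c g * t ∈ m (ι g)
      mono := fun e ⟨a, j, b⟩ => ⟨A.mono e a, j, fun g hg => b g (e hg)⟩
      tr := fun γ H ι ⟨a, j, b⟩ => ⟨A.tr γ a, (t3 T j γ).imp fun j' e g hg => by
        obtain ⟨t, b1, b2⟩ := b _ hg
        exact ⟨_, e g t b1, by simpa [mul_assoc] using b2⟩⟩ }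
  have e1 : ∀ T T' : Finset Γ, T ⊆ T' → ∀ H ι, (E T).adm H ι → (E T').adm H ι :=
    fun T T' e H ι ⟨a, j, b⟩ => ⟨a, j, fun g hg => (b g hg).imp fun t h =>
      ⟨t4 _ _ (Finset.coe_subset.2 e) j h.1, h.2⟩⟩
  refine null_dir hG E (fun _ _ _ e => e.1) (fun H ι a => ?_)
    (fun a b => ⟨a ∪ b, e1 _ _ Finset.subset_union_left, e1 _ _ Finset.subset_union_right⟩)
    fun T => ?_
  · obtain ⟨T, b1, b2⟩ := hA H ι a
    exact ⟨b1.toFinset, a, 0, fun g hg => (b2 g hg).2.imp fun t h =>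
      ⟨b1.mem_toFinset.2 h.1, h.2⟩⟩
  · choose R hR using fun j => h (t1 T j).toFinset
    choose! π p1 p2 using hR
    refine null_dec hG hc (tw U T) (t1 T) (t2 T) (t3 T) d _ (fun j => h𝒴 (t1 T j).toFinset) m
      {i | m i ∈ 𝒳} (fun j => R j) (fun j => (R j).finite_toSet) (fun i j => π j (m i))
      (fun i hi j => p1 j _ hi) (fun i hi j g => by simpa using p2 j _ hi g) _
      fun H ι ⟨a, j, b⟩ => ⟨j, fun g hg => ⟨?_, b g hg⟩⟩
    obtain ⟨_, -, b2⟩ := hA H ι a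
    exact (b2 g hg).1

end Pool.Agent.Lib.MP_2fb4be_al.Sol.K
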