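import Mathlib

/-!
A class of families of subsets of a group that is closed under permutation resolutions of finite
length and under decomposition at all scales.
-/

set_option autoImplicit false

namespace Pool.Agent.Lib.MP_2fb4be_al

open CategoryTheory

/-- The family of left cosets of a subgroup. -/
def cosets {Γ : Type} [Group Γ] (K : Subgroup Γ) : Set (Set Γ) :=
  {X | ∃ γ : Γ, X = {g | γ⁻¹ * g ∈ K}}

/-- `DC k ξ` is the smallest class of families of subsets of `Γ` that contains every family whose
members meet the sequences `ξ ^ n * g` boundedly often, contains the family of left cosets of every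
subgroup of finite cohomological dimension over `k`, is closed under the union of two families,
contains the family of left cosets of `K` whenever the trivial module `k` has a resolution of finite
length by permutation modules of `K` such that the class contains the family of left cosets of every
point stabiliser, and contains `𝒳` whenever, for some `d` and every finite `T`, the points of each
member `X` of `𝒳` can be sent to nearby members of a family in the class so that at most `d` members
are used on each intersection of `X` with a left translate of `T`. -/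
inductive DC (k : Type) [CommRing k] {Γ : Type} [Group Γ] (ξ : Γ) : Set (Set Γ) → Prop
  | thin (𝒳 : Set (Set Γ)) (F : ℕ)
      (h : ∀ X ∈ 𝒳, ∀ g, {n : ℕ | ξ ^ n * g ∈ X}.encard ≤ F) : DC k ξ 𝒳
  | fd (K : Type) [Group K] (φ : K →* Γ) (hφ : Function.Injective φ)
      (P : ProjectiveResolution (Rep.trivial k K k)) (N : ℕ)
      (h : ∀ n, N < n → Limits.IsZero (P.complex.X n)) : DC k ξ (cosets φ.range)
  | union (𝒳 𝒴 : Set (Set Γ)) (h1 : DC k ξ 𝒳) (h2 : DC k ξ 𝒴) : DC k ξ (𝒳 ∪ 𝒴)
  | act (K : Type) [Group K] (φ : K →* Γ) (hφ : Function.Injective φ)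
      (X : ℕ → Type) [∀ n, MulAction K (X n)]
      (d : ∀ n, (X (n + 1) →₀ k) →ₗ[k] (X n →₀ k)) (ε : (X 0 →₀ k) →ₗ[k] k)
      (hd : ∀ n (g : K) c, d n (c.mapDomain (g • ·)) = (d n c).mapDomain (g • ·))
      (hε : ∀ (g : K) c, ε (c.mapDomain (g • ·)) = ε c)
      (h0 : Function.Surjective ε) (h1 : Function.Exact (d 0) ε)
      (h2 : ∀ n, Function.Exact (d (n + 1)) (d n))
      (N : ℕ) (hN : ∀ n, N < n → IsEmpty (X n))
      (hs : ∀ n (x : X n), DC k ξ (cosets ((MulAction.stabilizer K x).map φ))) :
      DC k ξ (cosets φ.range)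
  | dec (𝒳 : Set (Set Γ)) (d : ℕ) (𝒴 : Finset Γ → Set (Set Γ)) (h𝒴 : ∀ T, DC k ξ (𝒴 T))
      (h : ∀ T : Finset Γ, ∃ T' : Finset Γ, ∀ X ∈ 𝒳, ∃ π : Γ → Set Γ,
        (∀ g ∈ X, π g ∈ 𝒴 T ∧ ∃ t ∈ T', g * t ∈ π g) ∧
        ∀ g, (π '' {a ∈ X | g⁻¹ * a ∈ T}).encard ≤ d) : DC k ξ 𝒳

end Pool.Agent.Lib.MP_2fb4be_al
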