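import Pool.Agent.Lib.MP_2fb4be_al.DC.Lab

/-!
Complexes of labels that come from permutation modules.
-/

set_option autoImplicit false
set_option linter.unusedSectionVars false

noncomputable section

namespace Pool.Agent.Lib.MP_2fb4be_al.Sol.K

open Finsupp hiding cons
open Filter Pool.Agent.Lib.MP_f0c981_al

variable {k : Type} [CommRing k] {G : Type} [Group G] {I D : Type} [AddCommGroup D] [Module k D]
variable {C : Co k G D} {K : Type} [Group K]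

/-- The permutation module. -/
def pm (k K X : Type) [CommRing k] [Group K] [MulAction K X] : Representation k K (X →₀ k) where
  toFun g := lmapDomain k k (g • ·)
  map_one' := lhom_ext fun y b => by simp
  map_mul' := fun a b => lhom_ext fun y b => by simp [mul_smul]

lemma exists_Z (X : ℕ → Type) [∀ n, MulAction K (X n)]
    (d : ∀ n, (X (n + 1) →₀ k) →ₗ[k] (X n →₀ k)) (ε : (X 0 →₀ k) →ₗ[k] k)
    (hd : ∀ n (g : K) c, d n (c.mapDomain (g • ·)) = (d n c).mapDomain (g • ·))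
    (hε : ∀ (g : K) c, ε (c.mapDomain (g • ·)) = ε c)
    (h0 : Function.Surjective ε) (h1 : Function.Exact (d 0) ε)
    (h2 : ∀ n, Function.Exact (d (n + 1)) (d n)) : ∃ Z : ∀ n, B k K →ₗ[k] (X n →₀ k),
      (∀ n (g : K) σ, Z n (act k K K g σ) = (Z n σ).mapDomain (g • ·)) ∧
      (∀ g, ε (Z 0 (single [g] 1)) = 1) ∧
      ∀ n, ∀ σ ∈ gr k K (n + 2), d n (Z (n + 1) σ) = Z n (bd σ) := by
  let Q : ∀ n, (B k K →ₗ[k] (X n →₀ k)) → Prop := fun n F =>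
    Eqv (pm k K (X n)) F ∧ ∀ σ ∈ gr k K (n + 2), F (bd σ) ∈ LinearMap.range (d n)
  obtain ⟨F0, a1, a2⟩ := lift_surj (pm k K (X 0)) (Representation.trivial k K k) ε hε h0
    (lapply [] ∘ₗ bd) fun γ x => by simp [bd_act, act_nil]
  have base : Q 0 F0 := ⟨a1, fun σ hσ => (h1 _).1 (by
    rw [a2 0 _ (bd_gr hσ)]
    simp [bd_bd])⟩
  have step : ∀ n F, Q n F → ∃ F', Q (n + 1) F' ∧
      ∀ σ ∈ gr k K (n + 2), d n (F' σ) = F (bd σ) := by
    rintro n F ⟨e1, e2⟩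
    obtain ⟨g, g1, g2⟩ := lift_map (pm k K (X (n + 1))) (pm k K (X n)) (d n) (hd n) (F ∘ₗ bd)
      fun γ x => by rw [LinearMap.comp_apply, bd_act, e1]; rfl
    exact ⟨g, ⟨g1, fun σ hσ => (h2 n _).1 (by
      rw [g2 _ e2 _ (bd_gr hσ)]
      simp [bd_bd])⟩, g2 _ e2⟩
  choose st s1 s2 using step
  let T : ∀ n, {F // Q n F} := fun n =>
    Nat.rec ⟨F0, base⟩ (fun n F => ⟨st n F.1 F.2, s1 n F.1 F.2⟩) n
  exact ⟨fun n => (T n).1, fun n => (T n).2.1, fun g =>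
    (a2 0 _ (single_mem_gr (l := [g]) rfl 1)).trans (by simp [bd_single_cons]),
    fun n => s2 n (T n).1 (T n).2⟩

variable [IsDomain k]

lemma null_empty (A : CS G I) (h : ∀ H ι, A.adm H ι → ∀ g, g ∉ H) : Null (UD C A) := by
  refine null_thin (fun _ => C.s 1) (fun _ => C.ds 1) fun H ι b e _ h' => ?_
  simp only [fun g => h' g (h H ι e g), map_zero]
  exact zero_mem _

lemma null_eqv (hG : FinType k G) (A : CS G I) (Λ : ℕ → Type) [∀ n, MulAction K (Λ n)]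
    (good : ∀ n, Set (Λ n)) (hg : ∀ n (g : K), ∀ x ∈ good n, g • x ∈ good n)
    (b : ∀ n, (Λ (n + 1) →₀ k) →ₗ[k] (Λ n →₀ k)) (ε : (Λ 0 →₀ k) →ₗ[k] k)
    (e0 : ∀ y, ε (b 0 y) = 0) (e1 : ∀ n y, b n (b (n + 1) y) = 0)
    (hb : ∀ n (g : K) c, b n (c.mapDomain (g • ·)) = (b n c).mapDomain (g • ·))
    (hε : ∀ (g : K) c, ε (c.mapDomain (g • ·)) = ε c)
    (bg : ∀ n, ∀ x ∈ good (n + 1), ∀ y, b n (single x 1) y ≠ 0 → y ∈ good n)
    (Z : ∀ n, B k K →ₗ[k] (Λ n →₀ k))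
    (zρ : ∀ n (g : K) σ, Z n (act k K K g σ) = (Z n σ).mapDomain (g • ·))
    (z0 : ∀ g, ε (Z 0 (single [g] 1)) = 1)
    (z1 : ∀ n, ∀ σ ∈ gr k K (n + 2), b n (Z (n + 1) σ) = Z n (bd σ)) (N : ℕ)
    (z2 : ∀ σ ∈ gr k K (N + 1), Z N σ = 0)
    (zg : ∀ n, ∀ σ ∈ gr k K (n + 1), ∀ y, Z n σ y ≠ 0 → y ∈ good n) (κ : I → G → K)
    (hκ : ∀ H ι, A.adm H ι → ∀ γ, ((fun g => (κ (ι g) g)⁻¹ * κ (ι g) (g * γ)) '' H).Finite)
    (hN : ∀ n, ∀ x ∈ good n, ∀ T : CS G (I × Λ n), (∀ H ι, T.adm H ι →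
      A.adm H (fun g => (ι g).1) ∧ ∃ W : Set K, W.Finite ∧
        ∀ g ∈ H, ∃ t ∈ W, (ι g).2 = κ (ι g).1 g • t • x) → Null (UD C T)) :
    Null (UD C A) := by
  let T : ∀ n, CS G (I × Λ n) := fun n =>
    { adm := fun H ι => A.adm H (fun g => (ι g).1) ∧ ∃ W : Set (Λ n), W.Finite ∧ W ⊆ good n ∧
        ∀ g ∈ H, (κ (ι g).1 g)⁻¹ • (ι g).2 ∈ W
      mono := fun h ⟨a, W, w1, w2, w3⟩ => ⟨A.mono h a, W, w1, w2, fun g e => w3 g (h e)⟩
      tr := fun γ H ι ⟨a, W, w1, w2, w3⟩ => ⟨A.tr γ a, _,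
        (hκ _ _ (A.tr γ a) γ).image2 (· • ·) w1, by
          rintro _ ⟨t, -, w, hw, rfl⟩
          exact hg n t w (w2 hw), fun g e =>
        ⟨_, ⟨g, e, rfl⟩, _, w3 _ e, by simp [mul_smul]⟩⟩ }
  have sh : ∀ n H ι, A.adm H ι → ∀ w : G → Λ n →₀ k, (w '' H).Finite →
      (∀ g ∈ H, ∀ y, w g y ≠ 0 → y ∈ good n) → ∀ z : G → Λ n →₀ k,
      (∀ g ∈ H, z g = mapDomain (κ (ι g) g • ·) (w g)) → LC (T n) H ι z :=
    fun n H ι a w w1 w2 z hz => LC_shape (T := T n) (ι := ι) w w1 (fun g => (κ (ι g) g • ·))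
      (fun s ⟨g, g1, g2⟩ => ⟨A.mono (fun _ h => h.1) a, {s}, Set.finite_singleton s,
        Set.singleton_subset_iff.2 (w2 g g1 s g2), fun g _ => by simp⟩) hz
  refine null_lab A Λ T b ε e0 e1 (fun n i => Z n ∘ₗ lmap (κ i)) (fun i g => by simp [z0])
    (fun n i σ hσ => ?_) N (fun H ι _ g _ l hl => z2 _ (lmap_gr _ (single_mem_gr (by simpa) 1)))
    (fun n H ι a l hl => ?_) (fun n H ι ⟨a, W, w1, w2, w3⟩ => ?_)
    (fun H ι ⟨a, W, w1, _, w3⟩ => ⟨a, (w1.image fun y => ε (single y 1)).subset ?_⟩) fun n => ?_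
  · rw [LinearMap.comp_apply, z1 n _ (lmap_gr _ hσ), bd_lmap]
    rfl
  · let w : G → List K := fun g => l.map fun s => (κ (ι g) g)⁻¹ * κ (ι g) (g * s)
    refine sh n H ι a (fun g => Z n (single (w g) 1))
      (((finite_lists ((List.finite_toSet l).biUnion fun s _ => hκ H ι a s) (n + 1)).image
        fun l => Z n (single l 1)).subset ?_)
      (fun g _ => zg n _ (single_mem_gr (by simpa [w]) 1)) _ fun g _ => ?_
    · rintro _ ⟨g, g1, rfl⟩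
      refine ⟨w g, ⟨by simpa [w], fun z hz => ?_⟩, rfl⟩
      obtain ⟨s, hs, rfl⟩ := List.mem_map.1 hz
      exact Set.mem_iUnion₂.2 ⟨s, hs, g, g1, rfl⟩
    · rw [← zρ]
      simp [w, Function.comp_def]
  · refine sh n H _ a (fun g => b n (single ((κ (ι g).1 g)⁻¹ • (ι g).2) 1))
      ((w1.image fun y => b n (single y 1)).subset ?_) (fun g e => bg n _ (w2 (w3 g e))) _
      fun g _ => by rw [← hb]; simp
    rintro _ ⟨g, e, rfl⟩
    exact ⟨_, w3 g e, rfl⟩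
  · rintro _ ⟨g, e, rfl⟩
    exact ⟨_, w3 g e, by beta_reduce; rw [← hε (κ (ι g).1 g)]; simp⟩
  · have o : ∀ (t : K) (y : Λ n), (Quotient.mk (MulAction.orbitRel K (Λ n)) (t • y)) =
        Quotient.mk _ y := fun t y => Quotient.sound ⟨t, rfl⟩
    refine null_cover hG (fun z => Quotient.mk (MulAction.orbitRel K (Λ n)) z.2)
      (fun H ι ⟨_, W, w1, _, w3⟩ => (w1.image (Quotient.mk _)).subset ?_) fun j => ?_
    · rintro _ ⟨g, e, rfl⟩
      exact ⟨_, w3 g e, o _ _⟩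
    · by_cases e : ∃ x ∈ good n, Quotient.mk (MulAction.orbitRel K (Λ n)) x = j
      · obtain ⟨x, hx, rfl⟩ := e
        refine hN n x hx _ fun H ι ⟨⟨a, W, w1, _, w3⟩, h⟩ => ⟨a, ?_⟩
        have : ∀ w : Λ n, ∃ t : K, Quotient.mk (MulAction.orbitRel K (Λ n)) w = Quotient.mk _ x →
            t • x = w := fun w => by
          by_cases e : Quotient.mk (MulAction.orbitRel K (Λ n)) w = Quotient.mk _ x
          · exact (Quotient.exact e).imp fun _ h _ => h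
          · exact ⟨1, fun e' => absurd e' e⟩
        choose t ht using this
        exact ⟨_, w1.image t, fun g e => ⟨_, ⟨_, w3 g e, rfl⟩, by
          rw [ht _ ((o _ _).trans (h g e)), smul_inv_smul]⟩⟩
      · exact null_empty _ fun H ι ⟨⟨_, W, _, w2, w3⟩, h⟩ g e' =>
          e ⟨_, w2 (w3 g e'), (o _ _).trans (h g e')⟩

end Pool.Agent.Lib.MP_2fb4be_al.Sol.K
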