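import Pool.Agent.Lib.MP_2fb4be_al.DC.U

/-!
Chain maps to complexes of labels of finite length.
-/

set_option autoImplicit false
set_option linter.unusedSectionVars false

noncomputable section

namespace Pool.Agent.Lib.MP_2fb4be_al.Sol.K

open Finsupp hiding cons
open Filter Pool.Agent.Lib.MP_f0c981_al

variable {k : Type} [CommRing k] {G : Type} [Group G] {I Λ D : Type} [AddCommGroup D] [Module k D]

/-- Controlled families of chains of labels. -/
def LS (k : Type) [CommRing k] (T : CS G (I × Λ)) (H : Set G) (ι : G → I) :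
    Submodule k (G → Λ →₀ k) :=
  Submodule.span k {y | ∃ (l : G → Λ) (r : G → k), r ∈ FR k G ∧
    T.adm {g ∈ H | r g ≠ 0} (fun g => (ι g, l g)) ∧ y = fun g => single (l g) (r g)}

/-- Families that agree on `H` with a controlled family. -/
def LC (T : CS G (I × Λ)) (H : Set G) (ι : G → I) (z : G → Λ →₀ k) : Prop :=
  ∃ z' ∈ LS k T H ι, ∀ g ∈ H, z g = z' g

variable {C : Co k G D} {T : CS G (I × Λ)} {H : Set G} {ι : G → I}

lemma LS_gen (l : G → Λ) {r : G → k} (h1 : r ∈ FR k G)
    (h2 : T.adm {g ∈ H | r g ≠ 0} fun g => (ι g, l g)) :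
    (fun g => single (l g) (r g)) ∈ LS k T H ι :=
  Submodule.subset_span ⟨l, r, h1, h2, rfl⟩

lemma emb_mem {z : G → Λ →₀ k} (hz : LC T H ι z) {b : G → D} (h2 : b ∈ C.W)
    (h3 : ∀ g ∉ H, b g = 0) : (fun g => emb (ι g) (z g) (b g)) ∈ US C T := by
  obtain ⟨z', h, e⟩ := hz
  have : LS k T H ι ≤ (US C T).comap
      (LinearMap.pi fun g => (emb (ι g)).flip (b g) ∘ₗ LinearMap.proj g) :=
    Submodule.span_le.2 (by
      rintro _ ⟨l, r, a1, a2, rfl⟩
      have := US_gen a2 (C.smul a1 h2) fun g hg => by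
        by_cases e : g ∈ H
        · rw [not_not.1 fun e' => hg ⟨e, e'⟩, zero_smul]
        · rw [h3 g e, smul_zero]
      refine (congrArg (· ∈ US C T) (funext fun g => ?_)).mp this
      simp)
  refine (congrArg (· ∈ US C T) (funext fun g => ?_)).mp (this h)
  by_cases e' : g ∈ H
  · simp [e g e']
  · simp [h3 g e']

lemma LC_shape {S : Type} (w : G → S →₀ k) (hw : (w '' H).Finite) (V : G → S → Λ)
    (h : ∀ s, (∃ g ∈ H, w g s ≠ 0) → T.adm {g ∈ H | w g s ≠ 0} fun g => (ι g, V g s))
    {z : G → Λ →₀ k} (hz : ∀ g ∈ H, z g = mapDomain (V g) (w g)) : LC T H ι z := by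
  classical
  refine ⟨_, span_shape (LS k T H ι) (fun g => if g ∈ H then w g else 0)
    ((hw.insert 0).subset ?_) V fun s ⟨g, hg⟩ hr => LS_gen _ hr (T.mono (fun a ha => ?_) (h s ?_)),
    fun g hg => by rw [hz g hg, if_pos hg]⟩
  · rintro _ ⟨g, rfl⟩
    beta_reduce
    split_ifs with e
    · exact Or.inr ⟨g, e, rfl⟩
    · exact Or.inl rfl
  · exact ⟨ha.1, by simpa [ha.1] using ha.2⟩
  · by_cases e : g ∈ H
    · exact ⟨g, e, by simpa [e] using hg⟩
    · simp [e] at hg

/-- The augmentation of labels. -/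
def eps (ε : (Λ →₀ k) →ₗ[k] k) : (I × Λ →₀ D) →ₗ[k] (I →₀ D) :=
  lsum k fun z => ε (single z.2 1) • lsingle z.1

lemma eps_single (ε : (Λ →₀ k) →ₗ[k] k) (z : I × Λ) (b : D) :
    eps ε (single z b) = single z.1 (ε (single z.2 1) • b) := by simp [eps]

lemma eps_emb (ε : (Λ →₀ k) →ₗ[k] k) (i : I) (y : Λ →₀ k) (b : D) :
    eps ε (emb i y b) = single i (ε y • b) := by
  induction y using Finsupp.induction_linear with
  | zero => simp
  | add x y h1 h2 => simp only [map_add, LinearMap.add_apply, h1, h2, add_smul, single_add]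
  | single x c =>
    rw [emb_single, eps_single, ← smul_single_one x c, map_smul, smul_smul, smul_eq_mul, mul_comm]

lemma range_emb (c : D →ₗ[k] D) (i : I) (y : Λ →₀ k) (b : D) :
    mapRange.linearMap c (emb i y b) = emb i y (c b) := by
  induction y using Finsupp.induction_linear with
  | zero => simp
  | add x y h1 h2 => simp only [map_add, LinearMap.add_apply, h1, h2]
  | single x r => simp

/-- The product of a chain with a labelled vector. -/
def mulZ (Z : I → B k G →ₗ[k] (Λ →₀ k)) : B k G →ₗ[k] (I →₀ D) →ₗ[k] (I × Λ →₀ D) :=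
  LinearMap.flip (lsum k fun i => (emb i ∘ₗ Z i).flip)

lemma mulZ_single (Z : I → B k G →ₗ[k] (Λ →₀ k)) (σ : B k G) (i : I) (y : D) :
    mulZ Z σ (single i y) = emb i (Z i σ) y := by simp [mulZ]

lemma null_lab [IsDomain k] (A : CS G I) (Λ : ℕ → Type) (T : ∀ n, CS G (I × Λ n))
    (b : ∀ n, (Λ (n + 1) →₀ k) →ₗ[k] (Λ n →₀ k)) (ε : (Λ 0 →₀ k) →ₗ[k] k)
    (e0 : ∀ y, ε (b 0 y) = 0) (e1 : ∀ n y, b n (b (n + 1) y) = 0)
    (Z : ∀ n, I → B k G →ₗ[k] (Λ n →₀ k)) (z0 : ∀ i g, ε (Z 0 i (single [g] 1)) = 1)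
    (z1 : ∀ n i, ∀ σ ∈ gr k G (n + 2), b n (Z (n + 1) i σ) = Z n i (bd σ)) (N : ℕ)
    (z2 : ∀ H ι, A.adm H ι → ∀ g ∈ H, ∀ l : List G, l.length = N + 1 →
      Z N (ι g) (single (l.map (g • ·)) 1) = 0)
    (z3 : ∀ n H ι, A.adm H ι → ∀ l : List G, l.length = n + 1 →
      LC (T n) H ι fun g => Z n (ι g) (single (l.map (g • ·)) 1))
    (c1 : ∀ n H ι, (T (n + 1)).adm H ι →
      LC (T n) H (fun g => (ι g).1) fun g => b n (single (ι g).2 1))
    (c0 : ∀ H ι, (T 0).adm H ι → A.adm H (fun g => (ι g).1) ∧
      ((fun g => ε (single (ι g).2 1)) '' H).Finite)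
    (hN : ∀ n, Null (UD C (T n))) : Null (UD C A) := by
  classical
  let Ψ : ∀ n, G → B k G →ₗ[k] (I →₀ D) →ₗ[k] (I × Λ n →₀ D) := fun n g =>
    mulZ (Z n) ∘ₗ act k G G g
  have p0 : ∀ n g σ i y, Ψ n g σ (single i y) = emb i (Z n i (act k G G g σ)) y :=
    fun n g σ i y => mulZ_single _ _ _ _
  have p1 : ∀ n (l : List G), l.length = n + 1 → Pres C A (T n) fun g => Ψ n g (single l 1) :=
    fun n l hl H ι y h1 h2 h3 => by
      simp only [p0, act_single]
      exact emb_mem (z3 n H ι h1 l hl) h2 h3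
  have p2 : ∀ n, Pres C (T (n + 1)) (T n) fun _ => tens (b n) := fun n H ι y h1 h2 h3 => by
    have := emb_mem (c1 n H ι h1) h2 h3
    simpa only [← tens_single] using this
  have p3 : Pres C (T 0) A fun _ => eps ε := fun H ι y h1 h2 h3 => by
    have := US_gen (c0 H ι h1).1 (C.smul (r := fun g => if g ∈ H then ε (single (ι g).2 1) else 0)
      (((c0 H ι h1).2.insert 0).subset (by
        rintro _ ⟨g, rfl⟩
        beta_reduce
        split_ifs with e
        · exact Or.inr ⟨g, e, rfl⟩
        · exact Or.inl rfl)) h2) fun g hg => by simp [hg]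
    refine (congrArg (· ∈ US C A) (funext fun g => ?_)).mp this
    by_cases e : g ∈ H
    · simp [e, eps_single]
    · simp [h3 g e]
  let μ : ∀ n, B k G →ₗ[k] US C A →ₗ[k] US C (T n) := fun n =>
    linearCombination k fun l => if h : l.length = n + 1 then UM _ (p1 n l h) else 0
  have q0 : ∀ n (l : List G) r, l.length ≠ n + 1 → μ n (single l r) = 0 := fun n l r h => by
    simp [μ, h]
  have q1 : ∀ n, ∀ σ ∈ gr k G (n + 1), ∀ e g, (μ n σ e).1 g = Ψ n g σ (e.1 g) := by
    intro n σ hσ e g
    refine gr_induction (p := fun σ => (μ n σ e).1 g = Ψ n g σ (e.1 g)) hσ ?_ ?_ ?_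
    · simp
    · intro x y h1 h2
      simp only [map_add, LinearMap.add_apply, Submodule.coe_add, Pi.add_apply, h1, h2]
    · intro l r h
      rw [← smul_single_one l r, map_smul, map_smul]
      simp [μ, h]
  refine null_cup _ _ (fun n => UD C (T n)) (UM _ p3) (fun n => UM _ (p2 n))
    (UM_mor _ _ fun y => ?_) (fun n => UM_mor _ _ (tens_range _ _))
    (fun y => Subtype.ext (funext fun g => ?_)) (fun n y => Subtype.ext (funext fun g => ?_)) μ
    (fun n γ σ e => ?_) (fun n σ e => ?_) (fun a e => Subtype.ext (funext fun g => ?_))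
    (fun n σ hσ e => Subtype.ext (funext fun g => ?_)) N
    (fun σ hσ e => ?_) hN
  · induction y using Finsupp.induction_linear with
    | zero => simp
    | add x y h1 h2 => simp only [map_add, h1, h2]
    | single z y => simp [eps_single]
  · change eps ε (tens (b 0) (y.1 g)) = 0
    induction y.1 g using Finsupp.induction_linear with
    | zero => simp
    | add x y h1 h2 => simp only [map_add, h1, h2, add_zero]
    | single z y => rw [tens_single, eps_emb, e0, zero_smul, single_zero]
  · change tens (b n) (tens (b (n + 1)) (y.1 g)) = 0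
    induction y.1 g using Finsupp.induction_linear with
    | zero => simp
    | add x y h1 h2 => simp only [map_add, h1, h2, add_zero]
    | single z y => rw [tens_single, tens_emb, e1]; simp
  · induction σ using Finsupp.induction_linear with
    | zero => simp
    | add x y h1 h2 => simp only [map_add, LinearMap.add_apply, h1, h2]
    | single l r =>
      by_cases h : l.length = n + 1
      · refine Subtype.ext (funext fun g => ?_)
        rw [UD_ρ, q1 n _ (act_gr γ (single_mem_gr h r)), q1 n _ (single_mem_gr h r), UD_ρ]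
        simp only [Ψ, LinearMap.comp_apply, act_mul]
      · rw [act_single, q0 n l r h, q0 n _ r (by simpa using h)]
        simp
  · induction σ using Finsupp.induction_linear with
    | zero => simp
    | add x y h1 h2 => simp only [map_add, LinearMap.add_apply, h1, h2]
    | single l r =>
      by_cases h : l.length = n + 1
      · refine Subtype.ext (funext fun g => ?_)
        rw [UD_d, q1 n _ (single_mem_gr h r), q1 n _ (single_mem_gr h r), UD_d]
        induction e.1 g using Finsupp.induction_linear with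
        | zero => simp
        | add x y h1 h2 => simp only [map_add, h1, h2]
        | single i y => rw [p0, range_emb, mapRange.linearMap_apply, mapRange_single, p0]
      · rw [q0 n l r h]
        simp
  · rw [UM_apply, q1 0 _ (single_mem_gr (l := [a]) rfl 1)]
    induction e.1 g using Finsupp.induction_linear with
    | zero => simp
    | add x y h1 h2 => simp only [map_add, h1, h2]
    | single i y => rw [p0, eps_emb, act_single, List.map_singleton, z0, one_smul]
  · rw [UM_apply, q1 _ _ hσ, q1 _ _ (bd_gr hσ)]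
    induction e.1 g using Finsupp.induction_linear with
    | zero => simp
    | add x y h1 h2 => simp only [map_add, h1, h2]
    | single i y => rw [p0, p0, tens_emb, z1 n i _ (act_gr g hσ), bd_act]
  · refine gr_ext ((μ N).flip e) 0 (fun l hl => Subtype.ext (funext fun g => ?_)) hσ
    rw [LinearMap.flip_apply, q1 _ _ (single_mem_gr hl 1)]
    refine congrFun ((Submodule.mem_bot k).1 (US_map id (fun g => Ψ N g (single l 1)) ⊥
      (fun H ι y h1 _ h3 => (Submodule.mem_bot k).2 (funext fun g => ?_)) e.2)) g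
    rw [p0, act_single]
    by_cases hg : g ∈ H
    · rw [id, z2 H ι h1 g hg l hl]
      simp
    · simp [h3 g hg]

end Pool.Agent.Lib.MP_2fb4be_al.Sol.K
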