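import Pool.Agent.Lib.MP_2fb4be_al.DC.Core
import Pool.Agent.Lib.MP_2fb4be_al.FD.RelMain

/-!
A distorted element of a combable group is not seen by a group that decomposes in the class `DC`.
-/

set_option autoImplicit false

noncomputable section

namespace Pool.Agent.Lib.MP_2fb4be_al.Sol

open Filter

variable {G Γ : Type} [Group G] [Group Γ]

lemma enc_pow {ξ : Γ} (hξ : ¬ IsOfFinOrder ξ) (X : Set Γ) (g : Γ) :
    {n : ℕ | ξ ^ n * g ∈ X}.encard ≤ X.encard :=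
  Set.encard_le_encard_of_injOn (f := fun n => ξ ^ n * g) (fun _ h => h) fun _ _ _ _ e =>
    injective_pow_iff_not_isOfFinOrder.2 hξ (mul_right_cancel e)

variable (k : Type) [CommRing k] [IsDomain k] [CharZero k]

theorem key_DC (P : K.Dat G Γ) (hG : Combable G) (hξ : ¬ IsOfFinOrder P.ξ)
    (hΓ : DC k P.ξ {Set.univ}) : ∃ (L : Len G) (N K0 : ℕ), ∀ W D : ℕ, 1 ≤ D →
      (∀ j ≤ N, L.len (P.x ^ W ^ j) ≤ D) → W ≤ K0 * D ^ (N + 1) := by
  have hF : K.FinType k G := K.finType hG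
  obtain ⟨L, p, C, h0, h1, h2, h3⟩ := hG
  have hv : (K.Cx P.x (Set Γ)).p fun g => {{P.c g}} := ⟨1, fun h z => by
    refine Set.encard_le_one_iff.2 fun n m hn hm => ?_
    have e := Set.singleton_injective (hn.symm.trans hm)
    rw [K.c_pow, K.c_pow] at e
    exact injective_pow_iff_not_isOfFinOrder.2 hξ (mul_right_cancel e)⟩
  have key : ∀ 𝒳, DC k P.ξ 𝒳 → K.NU (K.CB k P.x _ hv) P.c 𝒳 := fun 𝒳 h => by
    induction h with
    | thin 𝒳 F h => exact K.nu_thin P _ hv 𝒳 F h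
    | fd K1 φ hφ R N h =>
      refine K.nu_fd hF P.lip φ hφ (MP_f0c981_al.FD_of_resolution R N h) (K.nu_thin P _ hv _ 1 ?_)
      rintro _ ⟨γ, rfl⟩ g
      refine (enc_pow hξ _ g).trans (Set.encard_le_one_iff.2 fun a b ha hb => ?_)
      exact (inv_mul_eq_one.1 (Subgroup.mem_bot.1 ha)).symm.trans
        (inv_mul_eq_one.1 (Subgroup.mem_bot.1 hb))
    | union _ _ _ _ a b => exact K.nu_union hF a b
    | act K1 φ hφ X d ε hd hε h0 h1 h2 N hN _ ih =>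
      exact K.nu_act hF P.lip φ hφ X d ε hd hε h0 h1 h2 N hN ih
    | dec 𝒳 d 𝒴 _ h ih => exact K.nu_dec hF L P.lip 𝒳 d 𝒴 ih h
  exact ⟨L, K.key_null L p C h0 h1 h2 h3 P.x _ hv (key _ hΓ Unit (fun _ => Set.univ) (K.CS.top G)
    fun _ _ _ => ⟨{1}, Set.finite_singleton 1, fun _ _ => ⟨rfl, 1, rfl, trivial⟩⟩)⟩

theorem dc_undistorted (hG : Combable G) (P : K.Dat G Γ) (hΓ : DC k P.ξ {Set.univ})
    (S : Finset G) (h : ∀ e : ℕ, ∀ᶠ n in atTop, ∃ w : List G, (∀ s ∈ w, s ∈ S) ∧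
      w.prod = P.x ^ n ∧ w.length ^ e ≤ n) : IsOfFinOrder P.ξ := by
  by_contra hx
  obtain ⟨L, N, K0, hK⟩ := key_DC k P hG hx hΓ
  obtain ⟨c, hw⟩ := len_word' L S
  obtain ⟨n0, hn⟩ := eventually_atTop.1 (h ((N + 2) * N + 1))
  obtain ⟨b, hb⟩ : ∃ b, b = c + L.len P.x + 1 := ⟨_, rfl⟩
  obtain ⟨M, hM⟩ : ∃ M, M = K0 * b ^ (N + 1) + n0 + 1 := ⟨_, rfl⟩
  have hM1 : 1 ≤ M := by omega
  have := hK (M ^ (N + 2)) (b * M) (Nat.mul_pos (by omega) hM1) fun j hj => by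
    rcases Nat.eq_zero_or_pos j with rfl | hj0
    · simp only [pow_zero, pow_one]
      exact le_trans (by omega) (Nat.le_mul_of_pos_right b hM1)
    · have e1 : M ≤ (M ^ (N + 2)) ^ j := by
        rw [← pow_mul]
        exact Nat.le_self_pow (by positivity) M
      obtain ⟨w, w1, w2, w3⟩ := hn ((M ^ (N + 2)) ^ j) (le_trans (by omega) e1)
      have e2 : w.length ≤ M := by
        refine (Nat.pow_le_pow_iff_left (Nat.succ_ne_zero _)).1 (w3.trans ?_)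
        rw [← pow_mul]
        exact Nat.pow_le_pow_right hM1 ((Nat.mul_le_mul_left _ hj).trans (Nat.le_succ _))
      rw [← w2]
      exact (hw w w1).trans (Nat.mul_le_mul (by omega) e2)
  rw [mul_pow, ← mul_assoc, pow_succ' M (N + 1)] at this
  have := Nat.le_of_mul_le_mul_right this (pow_pos hM1 _)
  omega

theorem rel_dc (hG : Combable G) (x y : G) (p q : ℤ) (hpq : |p| ≠ |q|)
    (h : y * x ^ p * y⁻¹ = x ^ q) (ξ : Γ) (c : G → Γ) (h1 : ∀ g, c (x * g) = ξ * c g)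
    (h2 : ∀ s, (Set.range fun g => (c g)⁻¹ * c (g * s)).Finite)
    (hΓ : DC k ξ {Set.univ}) : IsOfFinOrder ξ := by
  have : p.natAbs ≠ q.natAbs := fun e => hpq (by rw [Int.abs_eq_natAbs, e, Int.abs_eq_natAbs])
  rcases lt_or_gt_of_ne this with e | e
  · obtain ⟨S, hS⟩ := bs_short x y p q e h
    exact dc_undistorted k hG ⟨x, ξ, c, h1, h2⟩ hΓ S hS
  · obtain ⟨S, hS⟩ := bs_short x y⁻¹ q p e (by rw [← h]; group)
    exact dc_undistorted k hG ⟨x, ξ, c, h1, h2⟩ hΓ S hS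

end Pool.Agent.Lib.MP_2fb4be_al.Sol
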