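import Pool.Agent.Lib.MP_2fb4be_al.FD.Shadow

/-!
An element of an automatic group that satisfies an unbalanced Baumslag-Solitar relation acts with
finite order in every action whose Schreier graphs have finite asymptotic dimension.
-/

set_option autoImplicit false

namespace Pool.Agent.Lib.MP_2fb4be_al.SchreierRetired

open Pool.Agent.Lib.MP_2fb4be_al

theorem result (G : Type) [Group G] (hG : IsAutomatic G) (x y : G) (p q : ℤ) (hpq : |p| ≠ |q|)
    (h : y * x ^ p * y⁻¹ = x ^ q) (Γ : Type) [Group Γ] (ξ : Γ) (c : G → Γ)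
    (h1 : ∀ g, c (x * g) = ξ * c g)
    (h2 : ∀ s, (Set.range fun g => (c g)⁻¹ * c (g * s)).Finite) (X : Type) [MulAction Γ X] (d : ℕ)
    (hX : ∀ S : Finset Γ, ∃ (F : ℕ) (ι : Type) (π : X → ι), (∀ i, (π ⁻¹' {i}).encard ≤ F) ∧
      ∀ z, ((fun s : Γ => π (s • z)) '' S).encard ≤ d) :
    ∃ n, 0 < n ∧ ∀ z : X, ξ ^ n • z = z :=
  Sol.shadow_action (Sol.combable_of_automatic hG) x y p q hpq h Γ ξ c h1 h2 X d hX

end Pool.Agent.Lib.MP_2fb4be_al.SchreierRetired
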