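import Pool.Agent.Lib.MP_2fb4be_al.DC.Main

/-!
An element of an automatic group that satisfies an unbalanced Baumslag-Solitar relation has an image
of finite order under every equivariant Lipschitz map to a group that decomposes in the class `DC`.
-/

set_option autoImplicit false

namespace Pool.Agent.Lib.MP_2fb4be_al.Stage

open Pool.Agent.Lib.MP_2fb4be_al

theorem result (G : Type) [Group G] (hG : IsAutomatic G) (x y : G) (p q : ℤ) (hpq : |p| ≠ |q|)
    (h : y * x ^ p * y⁻¹ = x ^ q) (Γ : Type) [Group Γ] (ξ : Γ) (c : G → Γ)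
    (h1 : ∀ g, c (x * g) = ξ * c g)
    (h2 : ∀ s, (Set.range fun g => (c g)⁻¹ * c (g * s)).Finite)
    (k : Type) [CommRing k] [IsDomain k] [CharZero k]
    (hΓ : DC k ξ {Set.univ}) : IsOfFinOrder ξ :=
  Sol.rel_dc k (Sol.combable_of_automatic hG) x y p q hpq h ξ c h1 h2 hΓ

end Pool.Agent.Lib.MP_2fb4be_al.Stage
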