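import Pool.Agent.Lib.MP_2fb4be_al.DC.Eqv
import Pool.Agent.Lib.MP_2fb4be_al.DC.Defs

/-!
The vanishing property for families of subsets: thin families, unions and permutation resolutions.
-/

set_option autoImplicit false
set_option linter.unusedSectionVars false

noncomputable section

namespace Pool.Agent.Lib.MP_2fb4be_al.Sol.K

open Finsupp hiding cons
open Filter Pool.Agent.Lib.MP_f0c981_al

variable {k : Type} [CommRing k] {G Γ K : Type} [Group G] [Group Γ] [Group K]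
variable {D S : Type} [AddCommGroup D] [Module k D]

/-- Families of vertex sets that are proper along the powers of `x`. -/
def Cx (x : G) (S : Type) : Ctl G S where
  p V := ∃ F : ℕ, ∀ h z, {n : ℕ | z ∈ V (x ^ n * h)}.encard ≤ F
  empty := ⟨0, by simp⟩
  mono := fun {V V'} h ⟨F, hF⟩ => ⟨F, fun g z => le_trans (Set.encard_le_encard
    (t := {n : ℕ | z ∈ V' (x ^ n * g)}) fun _ hn => h _ hn) (hF g z)⟩
  union := fun {V V'} ⟨F, hF⟩ ⟨F', hF'⟩ => ⟨F + F', fun g z =>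
    le_trans (Set.encard_union_le {n : ℕ | z ∈ V (x ^ n * g)} {n : ℕ | z ∈ V' (x ^ n * g)})
      (by exact_mod_cast add_le_add (hF g z) (hF' g z))⟩

lemma Cx_iff (x : G) (V : G → Set S) :
    (Cx x S).p V ↔ ∃ F : ℕ, ∀ h z, {n : ℕ | z ∈ V (x ^ n * h)}.encard ≤ F := Iff.rfl

lemma Cx_tr {x : G} (γ : G) (V : G → Set S) (h : (Cx x S).p V) :
    (Cx x S).p fun g => V (g * γ) := by
  obtain ⟨F, hF⟩ := (Cx_iff x V).1 h
  exact ⟨F, fun g z => by simpa only [mul_assoc] using hF (g * γ) z⟩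

/-- Controlled families of chains of any length. -/
def BVa (k : Type) [CommRing k] {α : Type} (C : Ctl α S) : Submodule k (α → B k S) :=
  ⨆ n, BV k C n

lemma BVa_of {α : Type} {C : Ctl α S} {n : ℕ} {y : α → B k S} (hy : y ∈ BV k C n) :
    y ∈ BVa k C := Submodule.mem_iSup_of_mem n hy

lemma BVa_map {α β M : Type} {C : Ctl α S} [AddCommGroup M] [Module k M] (φ : β → α)
    (F : β → B k S →ₗ[k] M) (W : Submodule k (β → M))
    (h : ∀ n, ∀ y ∈ BV k C n, (fun b => F b (y (φ b))) ∈ W) {y : α → B k S}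
    (hy : y ∈ BVa k C) : (fun b => F b (y (φ b))) ∈ W := by
  have : BVa k C ≤ W.comap (LinearMap.pi fun b => F b ∘ₗ LinearMap.proj (φ b)) :=
    iSup_le fun n y hy => h n y hy
  exact this hy

lemma BVa_cons {α : Type} {C : Ctl α S} {v : α → S} (hv : C.p fun a => {v a}) {y : α → B k S}
    (hy : y ∈ BVa k C) : (fun a => cons (v a) (y a)) ∈ BVa k C := by
  have := BVa_map id (fun a => cons (v a)) (BVa k C) (fun n y h => BVa_of (BV_cons hv h)) hy
  exact this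

lemma BVa_bd {α : Type} {C : Ctl α S} {y : α → B k S} (hy : y ∈ BVa k C) :
    (fun a => bd (y a)) ∈ BVa k C := by
  have := BVa_map id (fun _ => bd) (BVa k C) (fun n y h => BVa_of (BV_bd' h)) hy
  exact this

lemma BVa_smul {α : Type} {C : Ctl α S} {r : α → k} (hr : r ∈ FR k α) {y : α → B k S}
    (hy : y ∈ BVa k C) : (fun a => r a • y a) ∈ BVa k C := by
  have := BVa_map id (fun a => r a • (LinearMap.id : B k S →ₗ[k] B k S)) (BVa k C)
    (fun n y h => by simpa using BVa_of (BV_smul hr h)) hy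
  simpa using this

lemma BVa_comp {α β : Type} {C : Ctl α S} {C' : Ctl β S} (φ : β → α)
    (h : ∀ V, C.p V → C'.p fun b => V (φ b)) {y : α → B k S} (hy : y ∈ BVa k C) :
    (fun b => y (φ b)) ∈ BVa k C' := by
  have := BVa_map φ (fun _ => (LinearMap.id : B k S →ₗ[k] B k S)) (BVa k C')
    (fun n y e => by simpa using BVa_of (BV_comp φ h e)) hy
  simpa using this

/-- Coefficients in chains with proper vertices. -/
def CB (k : Type) [CommRing k] (x : G) (v : G → S) (hv : (Cx x S).p fun g => {v g}) :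
    Co k G (B k S) where
  W := BVa k (Cx x S)
  d := bd
  dd := bd_bd
  d_mem := BVa_bd
  tr := fun γ _ => BVa_comp (· * γ) (Cx_tr γ)
  smul := fun h1 h2 => BVa_smul h1 h2
  s := fun g => cons (v g)
  ds := fun g => bd_cons (v g)
  s_mem := BVa_cons hv

/-- Vanishing for all systems of labellings that are subordinate to a family of subsets. -/
def NU (C : Co k G D) (c : G → Γ) (𝒳 : Set (Set Γ)) : Prop :=
  ∀ (I : Type) (m : I → Set Γ) (A : CS G I), (∀ H ι, A.adm H ι → ∃ T : Set Γ, T.Finite ∧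
    ∀ g ∈ H, m (ι g) ∈ 𝒳 ∧ ∃ t ∈ T, c g * t ∈ m (ι g)) → Null (UD C A)

variable [IsDomain k]

lemma nu_thin (P : Dat G Γ) (v : G → Set Γ) (hv : (Cx P.x (Set Γ)).p fun g => {v g})
    (𝒳 : Set (Set Γ)) (F : ℕ) (h : ∀ X ∈ 𝒳, ∀ g, {n : ℕ | P.ξ ^ n * g ∈ X}.encard ≤ F) :
    NU (CB k P.x v hv) P.c 𝒳 := by
  classical
  intro I m A hA
  refine null_thin (fun i => cons (m i)) (fun i y => bd_cons (k := k) (m i) y)
    fun H ι b h1 h2 h3 => ?_
  obtain ⟨T, t1, t2⟩ := hA H ι h1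
  have e := (Cx P.x (Set Γ)).biUnion t1 (fun t g => {z ∈ 𝒳 | P.c g * t ∈ z}) fun t _ =>
    ⟨F, fun g z => by
      by_cases e : z ∈ 𝒳
      · simpa [e, c_pow, mul_assoc] using h z e (P.c g * t)
      · simp [e]⟩
  have := BVa_cons (v := fun g => if g ∈ H then m (ι g) else v g)
    ((Cx P.x (Set Γ)).mono (fun g z hz => by
      by_cases e : g ∈ H
      · obtain ⟨a, t, b, c⟩ := t2 g e
        rw [if_pos e] at hz
        exact Or.inl (Set.mem_iUnion₂.2 ⟨t, b, hz ▸ a, hz ▸ c⟩)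
      · exact Or.inr (by simpa [e] using hz)) ((Cx P.x (Set Γ)).union e hv)) h2
  refine (congrArg (· ∈ BVa k (Cx P.x (Set Γ))) (funext fun g => ?_)).mp this
  by_cases e : g ∈ H
  · simp [e]
  · simp [h3 g e]

variable {C : Co k G D} {c : G → Γ}

lemma nu_union (hG : FinType k G) {𝒳 𝒴 : Set (Set Γ)} (h1 : NU C c 𝒳) (h2 : NU C c 𝒴) :
    NU C c (𝒳 ∪ 𝒴) := by
  intro I m A hA
  refine null_cover hG (fun i => m i ∈ 𝒳) (fun _ _ _ => Set.toFinite _) fun j => ?_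
  by_cases e : j
  · refine h1 I m _ fun H ι ⟨a, b⟩ => (hA H ι a).imp fun T ⟨t1, t2⟩ =>
      ⟨t1, fun g hg => ⟨?_, (t2 g hg).2⟩⟩
    exact (b g hg).mpr e
  · refine h2 I m _ fun H ι ⟨a, b⟩ => (hA H ι a).imp fun T ⟨t1, t2⟩ =>
      ⟨t1, fun g hg => ⟨(t2 g hg).1.resolve_left fun e' => e ?_, (t2 g hg).2⟩⟩
    exact (b g hg).mp e'

lemma nu_eqv (hG : FinType k G) (hc : ∀ s, (Set.range fun g => (c g)⁻¹ * c (g * s)).Finite)
    (φ : K →* Γ) (hφ : Function.Injective φ) (Λ : ℕ → Type) [∀ n, MulAction K (Λ n)]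
    (good : ∀ n, Set (Λ n)) (hg : ∀ n (g : K), ∀ x ∈ good n, g • x ∈ good n)
    (b : ∀ n, (Λ (n + 1) →₀ k) →ₗ[k] (Λ n →₀ k)) (ε : (Λ 0 →₀ k) →ₗ[k] k)
    (e0 : ∀ y, ε (b 0 y) = 0) (e1 : ∀ n y, b n (b (n + 1) y) = 0)
    (hb : ∀ n (g : K) c, b n (c.mapDomain (g • ·)) = (b n c).mapDomain (g • ·))
    (hε : ∀ (g : K) c, ε (c.mapDomain (g • ·)) = ε c)
    (bg : ∀ n, ∀ x ∈ good (n + 1), ∀ y, b n (single x 1) y ≠ 0 → y ∈ good n)
    (Z : ∀ n, B k K →ₗ[k] (Λ n →₀ k))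
    (zρ : ∀ n (g : K) σ, Z n (act k K K g σ) = (Z n σ).mapDomain (g • ·))
    (z0 : ∀ g, ε (Z 0 (single [g] 1)) = 1)
    (z1 : ∀ n, ∀ σ ∈ gr k K (n + 2), b n (Z (n + 1) σ) = Z n (bd σ)) (N : ℕ)
    (z2 : ∀ σ ∈ gr k K (N + 1), Z N σ = 0)
    (zg : ∀ n, ∀ σ ∈ gr k K (n + 1), ∀ y, Z n σ y ≠ 0 → y ∈ good n)
    (hN : ∀ n, ∀ x ∈ good n, NU C c (cosets ((MulAction.stabilizer K x).map φ))) :
    NU C c (cosets φ.range) := by
  intro I m A hA
  have : ∀ i, ∃ γ : Γ, m i ∈ cosets φ.range → m i = {g | γ⁻¹ * g ∈ φ.range} := fun i => by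
    by_cases e : m i ∈ cosets φ.range
    · exact e.imp fun _ h _ => h
    · exact ⟨1, fun e' => absurd e' e⟩
  choose γ hγ using this
  let o : Γ → Γ := fun a => (a : Γ ⧸ φ.range).out
  have : ∀ i g, ∃ a, φ a = ((c g)⁻¹ * γ i)⁻¹ * o ((c g)⁻¹ * γ i) := fun i g =>
    (QuotientGroup.eq (s := φ.range)).1 (QuotientGroup.out_eq' _).symm
  choose κ hκ using this
  have ho : ∀ i g t δ, m i ∈ cosets φ.range → g * t ∈ m i →
      o ((g * δ)⁻¹ * γ i) = o (δ⁻¹ * t) := fun i g t δ h1 h2 => by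
    rw [hγ i h1] at h2
    exact congrArg Quotient.out (QuotientGroup.eq.2 (by simpa [mul_assoc] using h2))
  refine null_eqv hG A Λ good hg b ε e0 e1 hb hε bg Z zρ z0 z1 N z2 zg κ (fun H ι a s => ?_)
    fun n x hx T hT => hN n x hx _ (fun z => {a | ∃ s : K, a = γ z.1 * φ s ∧ s • x = z.2}) T
      fun H ι a => ?_
  · obtain ⟨T, t1, t2⟩ := hA H ι a
    refine ((((hc s).image2 (fun δ t => (o t)⁻¹ * δ * o (δ⁻¹ * t)) t1)).preimage
      hφ.injOn).subset ?_
    rintro _ ⟨g, hg, rfl⟩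
    obtain ⟨a1, t, a2, a3⟩ := t2 g hg
    refine ⟨_, ⟨g, rfl⟩, t, a2, ?_⟩
    have b1 := ho _ _ t 1 a1 a3
    have b2 := ho _ _ t ((c g)⁻¹ * c (g * s)) a1 a3
    rw [mul_one, inv_one, one_mul] at b1
    rw [mul_inv_cancel_left] at b2
    simp only [map_mul, map_inv, hκ, b1, b2]
    group
  · obtain ⟨a1, W, w1, w2⟩ := hT H ι a
    obtain ⟨T, t1, t2⟩ := hA H _ a1
    refine ⟨_, t1.image2 (fun t w => o t * φ w) w1, fun g hg => ?_⟩
    obtain ⟨b1, t, b2, b3⟩ := t2 g hg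
    obtain ⟨w, b4, b5⟩ := w2 g hg
    have b6 := ho _ _ t 1 b1 b3
    rw [mul_one, inv_one, one_mul] at b6
    refine ⟨⟨γ (ι g).1 * φ (κ (ι g).1 g * w), Set.ext fun a => ⟨?_, ?_⟩⟩, _,
      ⟨t, b2, w, b4, rfl⟩, κ (ι g).1 g * w, ?_, by rw [b5, mul_smul]⟩
    · rintro ⟨s, rfl, hs⟩
      exact ⟨(κ (ι g).1 g * w)⁻¹ * s, by
        rw [SetLike.mem_coe, MulAction.mem_stabilizer_iff, mul_smul, hs, b5, ← mul_smul _ w,
          inv_smul_smul], by simp [mul_assoc]⟩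
    · rintro ⟨s, hs, e⟩
      refine ⟨κ (ι g).1 g * w * s, ?_, by rw [b5, mul_smul, mul_smul, hs]⟩
      rw [map_mul, e]
      group
    · rw [map_mul, hκ, b6]
      group

lemma nu_act (hG : FinType k G) (hc : ∀ s, (Set.range fun g => (c g)⁻¹ * c (g * s)).Finite)
    (φ : K →* Γ) (hφ : Function.Injective φ) (X : ℕ → Type) [∀ n, MulAction K (X n)]
    (d : ∀ n, (X (n + 1) →₀ k) →ₗ[k] (X n →₀ k)) (ε : (X 0 →₀ k) →ₗ[k] k)
    (hd : ∀ n (g : K) c, d n (c.mapDomain (g • ·)) = (d n c).mapDomain (g • ·))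
    (hε : ∀ (g : K) c, ε (c.mapDomain (g • ·)) = ε c)
    (h0 : Function.Surjective ε) (h1 : Function.Exact (d 0) ε)
    (h2 : ∀ n, Function.Exact (d (n + 1)) (d n)) (N : ℕ) (hN : ∀ n, N < n → IsEmpty (X n))
    (hs : ∀ n (x : X n), NU C c (cosets ((MulAction.stabilizer K x).map φ))) :
    NU C c (cosets φ.range) := by
  obtain ⟨Z, z1, z2, z3⟩ := exists_Z X d ε hd hε h0 h1 h2
  have := hN (N + 1) (Nat.lt_succ_self N)
  exact nu_eqv hG hc φ hφ X (fun _ => Set.univ) (fun _ _ _ _ => trivial) d ε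
    h1.apply_apply_eq_zero (fun n => (h2 n).apply_apply_eq_zero) hd hε (fun _ _ _ _ _ => trivial)
    Z z1 z2 z3 (N + 1) (fun _ _ => Subsingleton.elim _ _) (fun _ _ _ _ _ => trivial)
    fun n x _ => hs n x

lemma nu_fd (hG : FinType k G) (hc : ∀ s, (Set.range fun g => (c g)⁻¹ * c (g * s)).Finite)
    (φ : K →* Γ) (hφ : Function.Injective φ) {N : ℕ} (hK : FD k K K N)
    (h : NU C c (cosets ⊥)) : NU C c (cosets φ.range) := by
  obtain ⟨f, f1, f2, f3, f4, f5⟩ := hK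
  let _ : MulAction K (List K) :=
    { smul := fun g l => l.map (g • ·)
      one_smul := fun l => by change l.map _ = l; simp
      mul_smul := fun a b l => by
        change l.map _ = (l.map _).map _
        simp [mul_assoc, Function.comp_def] }
  refine nu_eqv hG hc φ hφ (fun _ => List K) (fun n => {l | l.length = n + 1})
    (fun n g x hx => (List.length_map _).trans hx) (fun _ => bd) (lapply [] ∘ₗ bd)
    (fun y => by simp [bd_bd]) (fun _ => bd_bd) (fun _ g y => bd_act g y)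
    (fun g y => (congrArg (fun z : B k K => z []) (bd_act g y)).trans (act_nil g _))
    (fun n x hx y => gr_len (bd_gr (single_mem_gr hx 1))) (fun _ => f) (fun _ => f1)
    (fun g => by simp [f2, bd_single_cons, f4]) (fun _ σ _ => f2 σ) N (f5 _ (Nat.lt_succ_self N))
    (fun n σ hσ y => gr_len (f3 _ σ hσ)) fun n x hx => ?_
  obtain ⟨g, l, rfl⟩ := List.exists_cons_of_length_eq_add_one hx
  rwa [(Subgroup.eq_bot_iff_forall (MulAction.stabilizer K (g :: l))).2 fun a ha =>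
    mul_eq_right.1 (List.cons.inj ha).1, Subgroup.map_bot]

end Pool.Agent.Lib.MP_2fb4be_al.Sol.K
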