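import Pool.Agent.Lib.MP_2fb4be_al.DC.BV

/-!
Modules of controlled functions on a group with values in labelled chains.
-/

set_option autoImplicit false
set_option linter.unusedSectionVars false

noncomputable section

namespace Pool.Agent.Lib.MP_2fb4be_al.Sol.K

open Finsupp hiding cons
open Filter Pool.Agent.Lib.MP_f0c981_al

variable {k : Type} [CommRing k] {G : Type} [Group G] {I I' D : Type} [AddCommGroup D] [Module k D]

/-- A system of coefficients: controlled functions with values in a differential module. -/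
structure Co (k G D : Type) [CommRing k] [Group G] [AddCommGroup D] [Module k D] where
  W : Submodule k (G → D)
  d : D →ₗ[k] D
  dd : ∀ y, d (d y) = 0
  d_mem : ∀ {b}, b ∈ W → (fun g => d (b g)) ∈ W
  tr : ∀ (γ : G) {b}, b ∈ W → (fun g => b (g * γ)) ∈ W
  smul : ∀ {r b}, r ∈ FR k G → b ∈ W → (fun g => r g • b g) ∈ W
  s : G → D →ₗ[k] D
  ds : ∀ g y, d (s g y) = y - s g (d y)
  s_mem : ∀ {b}, b ∈ W → (fun g => s g (b g)) ∈ W

/-- A system of admissible labellings. -/
structure CS (G I : Type) [Group G] where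
  adm : Set G → (G → I) → Prop
  mono : ∀ {H H' : Set G} {ι : G → I}, H ⊆ H' → adm H' ι → adm H ι
  tr : ∀ (γ : G) {H : Set G} {ι : G → I}, adm H ι → adm {g | g * γ ∈ H} fun g => ι (g * γ)

/-- Controlled functions with labels. -/
def US (C : Co k G D) (A : CS G I) : Submodule k (G → I →₀ D) :=
  Submodule.span k {F | ∃ H ι b, A.adm H ι ∧ b ∈ C.W ∧ (∀ g ∉ H, b g = 0) ∧
    F = fun g => single (ι g) (b g)}

variable {C : Co k G D} {A : CS G I} {A' : CS G I'}

lemma US_gen {H : Set G} {ι : G → I} {b : G → D} (h1 : A.adm H ι) (h2 : b ∈ C.W)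
    (h3 : ∀ g ∉ H, b g = 0) : (fun g => single (ι g) (b g)) ∈ US C A :=
  Submodule.subset_span ⟨H, ι, b, h1, h2, h3, rfl⟩

lemma US_map {M β : Type} [AddCommGroup M] [Module k M] (φ : β → G)
    (Φ : β → (I →₀ D) →ₗ[k] M) (W : Submodule k (β → M))
    (h : ∀ H ι b, A.adm H ι → b ∈ C.W → (∀ g ∉ H, b g = 0) →
      (fun g => Φ g (single (ι (φ g)) (b (φ g)))) ∈ W) {F : G → I →₀ D}
    (hF : F ∈ US C A) : (fun g => Φ g (F (φ g))) ∈ W := by
  have : US C A ≤ W.comap (LinearMap.pi fun g => Φ g ∘ₗ LinearMap.proj (φ g)) :=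
    Submodule.span_le.2 (by rintro _ ⟨H, ι, b, h1, h2, h3, rfl⟩; exact h H ι b h1 h2 h3)
  exact this hF

/-- Pointwise maps that preserve control. -/
def Pres (C : Co k G D) (A : CS G I) (A' : CS G I') (Φ : G → (I →₀ D) →ₗ[k] (I' →₀ D)) : Prop :=
  ∀ H ι b, A.adm H ι → b ∈ C.W → (∀ g ∉ H, b g = 0) →
    (fun g => Φ g (single (ι g) (b g))) ∈ US C A'

/-- The map induced by a pointwise map. -/
def UM (Φ : G → (I →₀ D) →ₗ[k] (I' →₀ D)) (h : Pres C A A' Φ) : US C A →ₗ[k] US C A' where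
  toFun F := ⟨fun g => Φ g (F.1 g), US_map id Φ (US C A') h F.2⟩
  map_add' _ _ := Subtype.ext (funext fun g => map_add (Φ g) _ _)
  map_smul' _ _ := Subtype.ext (funext fun g => map_smul (Φ g) _ _)

@[simp] lemma UM_apply (Φ : G → (I →₀ D) →ₗ[k] (I' →₀ D)) (h : Pres C A A' Φ)
    (F : US C A) (g : G) : (UM Φ h F).1 g = Φ g (F.1 g) := rfl

lemma pres_d : Pres C A A fun _ => mapRange.linearMap C.d := fun H ι b h1 h2 h3 => by
  simpa using US_gen h1 (C.d_mem h2) fun g hg => by simp [h3 g hg]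

lemma US_tr (γ : G) {F : G → I →₀ D} (hF : F ∈ US C A) : (fun g => F (g * γ)) ∈ US C A := by
  refine US_map (· * γ) (fun _ => (LinearMap.id : (I →₀ D) →ₗ[k] (I →₀ D))) (US C A)
    (fun H ι b h1 h2 h3 => ?_) hF
  simp only [LinearMap.id_apply]
  exact US_gen (b := fun g => b (g * γ)) (A.tr γ h1) (C.tr γ h2) fun g hg => h3 _ hg

/-- The differential module of controlled functions. -/
def UD (C : Co k G D) (A : CS G I) : DM k G (US C A) where
  ρ :=
    { toFun := fun γ =>
        { toFun := fun F => ⟨fun g => F.1 (g * γ), US_tr γ F.2⟩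
          map_add' := fun _ _ => rfl
          map_smul' := fun _ _ => rfl }
      map_one' := LinearMap.ext fun F => Subtype.ext (funext fun g => congrArg F.1 (mul_one g))
      map_mul' := fun a b => LinearMap.ext fun F => Subtype.ext
        (funext fun g => congrArg F.1 (mul_assoc g a b).symm) }
  d := UM _ pres_d
  ρ_d := fun _ _ => rfl
  dd := fun F => Subtype.ext (funext fun g => by ext i : 1; simp [C.dd])

@[simp] lemma UD_ρ (γ : G) (F : US C A) (g : G) : ((UD C A).ρ γ F).1 g = F.1 (g * γ) := rfl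

@[simp] lemma UD_d (F : US C A) (g : G) :
    ((UD C A).d F).1 g = mapRange.linearMap C.d (F.1 g) := rfl

lemma UM_mor (Φ : (I →₀ D) →ₗ[k] (I' →₀ D)) (h : Pres C A A' fun _ => Φ)
    (hd : ∀ y, Φ (mapRange.linearMap C.d y) = mapRange.linearMap C.d (Φ y)) :
    Mor (UD C A) (UD C A') (UM _ h) :=
  ⟨fun _ _ => rfl, fun F => Subtype.ext (funext fun g => hd (F.1 g))⟩

lemma U_ex : (UD C A).Ex := fun F hF => by
  have hp : Pres C A A fun g => mapRange.linearMap (C.s g) := fun H ι b h1 h2 h3 => by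
    simpa using US_gen h1 (C.s_mem h2) fun g hg => by simp [h3 g hg]
  refine ⟨UM _ hp F, Subtype.ext (funext fun g => ?_)⟩
  ext i : 1
  have : C.d (F.1 g i) = 0 := DFunLike.congr_fun (congrFun (congrArg Subtype.val hF) g) i
  simp [C.ds, this]

variable [IsDomain k]

lemma null_thin (s : I → D →ₗ[k] D) (hs : ∀ i y, C.d (s i y) = y - s i (C.d y))
    (h : ∀ H ι b, A.adm H ι → b ∈ C.W → (∀ g ∉ H, b g = 0) → (fun g => s (ι g) (b g)) ∈ C.W) :
    Null (UD C A) := by
  have hp : Pres C A A fun _ => lsum k fun i => lsingle i ∘ₗ s i := fun H ι b h1 h2 h3 => by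
    simpa using US_gen h1 (h H ι b h1 h2 h3) fun g hg => by simp [h3 g hg]
  refine null_free _ (UM _ hp) (fun _ _ => rfl) fun F => Subtype.ext (funext fun g => ?_)
  change F.1 g = mapRange.linearMap C.d (lsum k (fun i => lsingle i ∘ₗ s i) (F.1 g)) +
    lsum k (fun i => lsingle i ∘ₗ s i) (mapRange.linearMap C.d (F.1 g))
  induction F.1 g using Finsupp.induction_linear with
  | zero => simp
  | add x y h1 h2 =>
    simp only [map_add]
    rw [add_add_add_comm, ← h1, ← h2]
  | single y b => simp [hs, single_sub]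

omit [IsDomain k] in
lemma US_le {A A' : CS G I} (h : ∀ H ι, A.adm H ι → A'.adm H ι) : US C A ≤ US C A' :=
  Submodule.span_mono (by
    rintro _ ⟨H, ι, b, h1, h2⟩
    exact ⟨H, ι, b, h H ι h1, h2⟩)

lemma null_dir (hG : FinType k G) {J : Type} [Nonempty J]
    (T : J → CS G I) (h1 : ∀ j H ι, (T j).adm H ι → A.adm H ι)
    (h2 : ∀ H ι, A.adm H ι → ∃ j, (T j).adm H ι)
    (h3 : ∀ a b, ∃ c, (∀ H ι, (T a).adm H ι → (T c).adm H ι) ∧
      ∀ H ι, (T b).adm H ι → (T c).adm H ι)
    (h4 : ∀ j, Null (UD C (T j))) : Null (UD C A) := by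
  have e1 : ∀ F ∈ US C A, ∃ j, F ∈ US C (T j) := fun F hF => by
    induction hF using Submodule.span_induction with
    | mem y h =>
      obtain ⟨H, ι, b, a1, a2, a3, rfl⟩ := h
      obtain ⟨j, hj⟩ := h2 H ι a1
      exact ⟨j, US_gen hj a2 a3⟩
    | zero => exact ⟨Classical.arbitrary J, zero_mem _⟩
    | add x y _ _ a b =>
      obtain ⟨a, ha⟩ := a
      obtain ⟨b, hb⟩ := b
      obtain ⟨c, c1, c2⟩ := h3 a b
      exact ⟨c, add_mem (US_le c1 ha) (US_le c2 hb)⟩
    | smul c x _ a => exact a.imp fun _ => Submodule.smul_mem _ c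
  refine null_union hG _ U_ex _ (fun j => UD C (T j))
    (fun j => Submodule.inclusion (US_le (h1 j))) (fun j => ⟨fun _ _ => rfl, fun _ => rfl⟩)
    (fun j => Submodule.inclusion_injective _) (fun _ => U_ex) h4 fun X hX => ?_
  suffices ∃ j, ∀ F ∈ X, F.1 ∈ US C (T j) from
    this.imp fun j hj F hF => ⟨⟨F.1, hj F hF⟩, rfl⟩
  induction X, hX using Set.Finite.induction_on with
  | empty => exact ⟨Classical.arbitrary J, by simp⟩
  | @insert F X _ _ ih =>
    obtain ⟨a, ha⟩ := e1 F.1 F.2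
    obtain ⟨b, hb⟩ := ih
    obtain ⟨c, c1, c2⟩ := h3 a b
    exact ⟨c, Set.forall_mem_insert.2 ⟨US_le c1 ha, fun F hF => US_le c2 (hb F hF)⟩⟩

/-- Restriction of the labels to a set. -/
def CS.on (A : CS G I) (Q : Set I) : CS G I where
  adm H ι := A.adm H ι ∧ ∀ g ∈ H, ι g ∈ Q
  mono := fun h ⟨a, b⟩ => ⟨A.mono h a, fun g hg => b g (h hg)⟩
  tr := fun γ _ _ ⟨a, b⟩ => ⟨A.tr γ a, fun _ hg => b _ hg⟩

lemma null_split (Q Q' : Set I) (h : Null (UD C (A.on Q))) (h' : Null (UD C (A.on Q'))) :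
    Null (UD C (A.on (Q ∪ Q'))) := by
  classical
  let Φ : (I → Prop) → (I →₀ D) →ₗ[k] (I →₀ D) := fun p =>
    lsum k fun i => if p i then lsingle i else 0
  have e0 : ∀ p i b, Φ p (single i b) = single i (if p i then b else 0) := fun p i b => by
    by_cases e : p i <;> simp [Φ, e]
  have e1 : ∀ (p : I → Prop) (R : Set I), (∀ i ∈ Q ∪ Q', p i → i ∈ R) →
      Pres C (A.on (Q ∪ Q')) (A.on R) fun _ => Φ p := fun p R hp H ι b h1 h2 h3 => by
    have := US_gen (A := A.on R) (H := {g ∈ H | p (ι g)})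
      ⟨A.mono (fun _ h => h.1) h1.1, fun g hg => hp _ (h1.2 g hg.1) hg.2⟩
      (C.smul (FR_ite (fun g => p (ι g)) (FR_const 1) (FR_const 0)) h2) fun g hg => by
        by_cases e : p (ι g)
        · simp [h3 g fun e' => hg ⟨e', e⟩]
        · simp [e]
    simpa [e0] using this
  have e2 : ∀ p y, Φ p (mapRange.linearMap C.d y) = mapRange.linearMap C.d (Φ p y) := fun p y => by
    induction y using Finsupp.induction_linear with
    | zero => simp
    | add x y h1 h2 => simp only [map_add, h1, h2]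
    | single i b => by_cases e : p i <;> simp [e0, e]
  refine null_two _ _ _ (UM _ (e1 (· ∈ Q) Q fun _ _ e => e))
    (UM _ (e1 (· ∉ Q) Q' fun _ e e' => e.resolve_left e'))
    (Submodule.inclusion (US_le fun _ _ e => ⟨e.1, fun g hg => Or.inl (e.2 g hg)⟩))
    (Submodule.inclusion (US_le fun _ _ e => ⟨e.1, fun g hg => Or.inr (e.2 g hg)⟩))
    (UM_mor _ _ (e2 _)) (UM_mor _ _ (e2 _)) ⟨fun _ _ => rfl, fun _ => rfl⟩
    ⟨fun _ _ => rfl, fun _ => rfl⟩ 1 one_ne_zero (fun F => Subtype.ext (funext fun g => ?_)) h h'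
  rw [one_smul]
  change Φ (· ∈ Q) (F.1 g) + Φ (· ∉ Q) (F.1 g) = F.1 g
  induction F.1 g using Finsupp.induction_linear with
  | zero => simp
  | add x y h1 h2 =>
    simp only [map_add]
    rw [add_add_add_comm, h1, h2]
  | single i b => by_cases e : i ∈ Q <;> simp [e0, e]

lemma null_cover (hG : FinType k G) {J : Type} (col : I → J)
    (h1 : ∀ H ι, A.adm H ι → ((fun g => col (ι g)) '' H).Finite)
    (h2 : ∀ j, Null (UD C (A.on {i | col i = j}))) : Null (UD C A) := by
  classical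
  refine null_dir hG (fun P : Finset J => A.on {i | col i ∈ P}) (fun _ _ _ e => e.1)
    (fun H ι e => ⟨(h1 H ι e).toFinset, e, fun g hg => (h1 H ι e).mem_toFinset.2 ⟨g, hg, rfl⟩⟩)
    (fun a b => ⟨a ∪ b, fun _ _ e => ⟨e.1, fun g hg => Finset.mem_union_left _ (e.2 g hg)⟩,
      fun _ _ e => ⟨e.1, fun g hg => Finset.mem_union_right _ (e.2 g hg)⟩⟩) fun P => ?_
  induction P using Finset.induction_on with
  | empty =>
    refine null_thin (fun _ => C.s 1) (fun _ => C.ds 1) fun H ι b e _ h => ?_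
    simp only [fun g => h g fun hg => by simpa using e.2 g hg, map_zero]
    exact zero_mem _
  | insert j P _ ih =>
    have := null_split _ _ (h2 j) ih
    rwa [show {i | col i = j} ∪ {i | col i ∈ P} = {i | col i ∈ insert j P} by ext; simp] at this

end Pool.Agent.Lib.MP_2fb4be_al.Sol.K
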